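import Pool.Agent.Q286.GB.RowsH
import Pool.Agent.Q240.OW.K3
import Pool.Agent.Q120.NL.All

/-!
# The distance of Nyman, Beurling and Báez-Duarte for the cohomology of schemes over `ℤ[1/N]`

Let `X` be a proper smooth scheme over `ℤ[1/N]`, and suppose that the L-function of `H^i(X)` is a product of
L-functions of holomorphic newforms, of arbitrary levels and nebentypus characters and of weights
`k ≤ i + 1`, `k ≡ i + 1 mod 2`, twisted `j = (i + 1 - k)/2` times.  Examples: `H¹` of all modular curves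
`X_0(M)`, `X_1(M)` and of their quotients, of all abelian varieties over `ℚ` of `GL₂`-type and their
products (Khare-Wintenberger, Ribet), of all curves of which the Jacobian is such a product; `H³` of the
rigid Calabi-Yau threefolds (Gouvêa-Yui, Dieulefait); `H^i`, `i` odd, of products of these with varieties all of
whose cohomology is algebraic over `ℚ`; `H^i`, `i` odd, of the powers of an elliptic curve over `ℚ` with complex
multiplication (newforms of the weights `2, 4, …, i + 1`).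
Let `F(s) = ∑ b(n) n^(-s)` be the L-function of `H^i`, `Λ(s)` the completed L-function and `c = (i + 1)/2`; part (d) of the
problem says that all zeros of `Λ` are on the line `Re s = c`.  For `M ≥ 1` let

  `e_M² = inf_a ∫_1^∞ |1 - ∑_{k ≤ y} ∑_{n j = k, n ≤ M} a_n b(j) / j^(i/2)|² dy/y²`

(only the numbers `b(j)` occur, which for `j` prime to `N` are given by the numbers of points of `X` over finite fields; no
continuation), and let `d_M²` be the squared distance, in `L²` of the critical line `Re s = c` with the measure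
`dt/(2π(1/4 + t²))`, of the constant `1` to the products `F(s) A(s)` with Dirichlet polynomials
`A(s) = ∑_{n ≤ M} a_n n^(-s)`.  Let

  `B = ∑_{g : Λ(c + i g) = 0} m(g)² / (1/4 + g²)`, `m(g)` = the multiplicity of the zero `c + i g`,

so that the central point contributes `4 r²`, `r` the order of vanishing.  We prove

* `e_M² ≤ d_M²`, and `4 r² ≤ B ≤ liminf e_M² log M`, without any hypothesis;
* under part (d) for `H^i(X)`: `B < ∞` and `d_M² log M → B`, `e_M² log M → B`;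
* if part (d) fails for `H^i(X)`: `e_M² ≥ b > 0` for all `M`.

So part (d) holds for `H^i(X)` if and only if `e_M → 0`, and then `e_M² log M` converges to `B`.

## All `L^p` norms

For `1 ≤ p < ∞` and `0 < σ < 1` let `D_{p,σ}(M)` be the distance in `L^p((1, ∞), y^(-pσ-1) dy)` of the constant `1` to the
span of the functions `S(y/n)`, `n ≤ M`, `S(z) = ∑_{j ≤ z} b(j) / j^(i/2)` (so `D_{2,1/2}(M)² = e_M²`), and let `Θ` be the
supremum of the numbers `Re s - i/2` for the zeros `s` of `Λ`.  The last conclusion (the structure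
`Pool.Agent.Q120.NL.LpLaw`) says:

* `1/2 ≤ Θ`, and `D_{p,σ}(M) = M^(-max(0, σ - Θ) + o(1))` for all `p` and `σ`; for `Θ < σ` the coefficients
  `mu(n) (1 - n/M)`, `mu` the Dirichlet inverse of `b(n) / n^(i/2)`, attain this exponent;
* a zero with `Re s - i/2 = x ≥ 1/2` gives `D_{p,x}(M) ≥ c (log M)^(-(1 - 1/p))` and `D_{p,σ}(M) ≥ c` for `σ < x`;
* for `1/2 ≤ θ < σ < 1` all zeros satisfy `Re s - i/2 ≤ θ` if and only if `D_{p,σ}(M) ≤ M^(-(σ - θ) + ε)` for every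
  `ε > 0` and all large `M`, or only for infinitely many `M`; a zero-free half-plane to the left of `Re s = 1 + i/2` exists
  if and only if `D_{p,σ}(M)` is at most a negative power of `M` for one `p` and `σ` and infinitely many `M`;
* at the critical weight `σ = 1/2`: `D_{p,1/2}(M) ≥ c (log M)^(-(1 - 1/p))` without any hypothesis; `D_{p,1/2}(M) ≥ c`
  if part (d) fails; and for `p > 1` part (d) holds if and only if `D_{p,1/2}(M) ≤ C (log M)^(-(1 - 1/p))`, if and only if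
  `D_{p,1/2}(M) → 0`.
-/

set_option autoImplicit false

open Complex AlgebraicGeometry CategoryTheory MeasureTheory Filter Topology
open scoped ComplexConjugate ENNReal
open Pool.Agent.Q246.HW

namespace Pool.Agent.Results.MP_7193be_nt.DistanceFormula

/-- Part (d) of the problem: all zeros of `Λ` have real part `(i + 1)/2`. -/
def RiemannHypothesis (i : ℕ) (Λ : ℂ → ℂ) : Prop := ∀ s : ℂ, Λ s = 0 → s.re = ((i : ℝ) + 1) / 2

/-- The order of `Λ` at the central point `(i + 1)/2`. -/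
noncomputable def rank (i : ℕ) (Λ : ℂ → ℂ) : ℕ := analyticOrderNatAt Λ (((i : ℂ) + 1) / 2)

/-- `b` is the sequence of the coefficients of `F`: `F(s) = ∑ b(n) n^(-s)` for large real part (and `b(0) = 0`). -/
def IsCoeff (F : ℂ → ℂ) (b : ℕ → ℂ) : Prop :=
  b 0 = 0 ∧ ∃ σ : ℝ, ∀ s : ℂ, σ ≤ s.re → HasSum (fun n : ℕ => b n * (n : ℂ) ^ (-s)) (F s)

/-- `d_M² = inf_a (1/2π) ∫ |1 - F(c + it) ∑_{n ≤ M} a_n n^(-c - it)|² dt / (1/4 + t²)`, `c = (i + 1)/2`. -/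
noncomputable def d2 (i : ℕ) (F : ℂ → ℂ) (M : ℕ) : ℝ≥0∞ :=
  ⨅ a : ℕ → ℂ, ENNReal.ofReal (1 / (2 * Real.pi)) * ∫⁻ t : ℝ, ENNReal.ofReal
    (‖1 - F (((i : ℂ) + 1) / 2 + t * I) * ∑ n ∈ Finset.Icc 1 M, a n * (n : ℂ) ^ (-(((i : ℂ) + 1) / 2 + t * I))‖ ^ 2 /
      (1 / 4 + t ^ 2))

/-- `e_M² = inf_a ∫_1^∞ |1 - ∑_{k ≤ y} ∑_{n j = k, n ≤ M} a_n b(j) / j^(i/2)|² dy / y²`. -/
noncomputable def e2 (i : ℕ) (b : ℕ → ℂ) (M : ℕ) : ℝ≥0∞ :=
  ⨅ a : ℕ → ℂ, ∫⁻ y in Set.Ioi (1 : ℝ), ENNReal.ofReal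
    (‖1 - ∑ k ∈ Finset.Icc 1 ⌊y⌋₊, ∑ p ∈ k.divisorsAntidiagonal,
      (if p.1 ≤ M then a p.1 else 0) * (b p.2 / (((p.2 : ℝ) ^ ((i : ℝ) / 2) : ℝ) : ℂ))‖ ^ 2 / y ^ 2)

/-- `B = ∑ m(g)² / (1/4 + g²)` over the zeros `c + i g` of `Λ` on the critical line, `c = (i + 1)/2`, `m(g)` the
multiplicity. -/
noncomputable def B (i : ℕ) (Λ : ℂ → ℂ) : ℝ≥0∞ :=
  ∑' g : {g : ℝ // Λ (((i : ℂ) + 1) / 2 + g * I) = 0},
    ENNReal.ofReal ((analyticOrderNatAt Λ (((i : ℂ) + 1) / 2 + (g : ℝ) * I) : ℝ) ^ 2 / (1 / 4 + (g : ℝ) ^ 2))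

open Pool.Agent.Q286.GB

lemma pow_cpow (i : ℕ) (n : ℕ) : (((n : ℝ) ^ ((i : ℝ) / 2) : ℝ) : ℂ) = (n : ℂ) ^ ((i : ℂ) / 2) := by
  rw [Complex.ofReal_cpow (Nat.cast_nonneg n)]
  push_cast
  rfl

lemma pow_ne (i : ℕ) {n : ℕ} (hn : n ≠ 0) : (((n : ℝ) ^ ((i : ℝ) / 2) : ℝ) : ℂ) ≠ 0 := by
  have h : (0 : ℝ) < n := by exact_mod_cast Nat.pos_of_ne_zero hn
  have := Real.rpow_pos_of_pos h ((i : ℝ) / 2)
  exact_mod_cast this.ne'

lemma coeff_uniq {F : ℂ → ℂ} {b b' : ℕ → ℂ} (h : IsCoeff F b) (h' : IsCoeff F b') : b' = b := by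
  have key : ∀ {b : ℕ → ℂ} {σ : ℝ}, b 0 = 0 → (∀ s : ℂ, σ ≤ s.re → HasSum (fun n : ℕ => b n * (n : ℂ) ^ (-s)) (F s)) →
      ∀ s : ℂ, σ ≤ s.re → LSeriesSummable b s ∧ LSeries b s = F s := by
    intro b σ h0 hσ s hs
    have e : LSeries.term b s = fun n : ℕ => b n * (n : ℂ) ^ (-s) := by
      funext n
      rcases Nat.eq_zero_or_pos n with rfl | hn
      · rw [LSeries.term_zero, h0, zero_mul]
      · rw [LSeries.term_of_ne_zero hn.ne', Complex.cpow_neg, div_eq_mul_inv]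
    unfold LSeriesSummable LSeries
    rw [e]
    exact ⟨(hσ s hs).summable, (hσ s hs).tsum_eq⟩
  obtain ⟨h0, σ, hσ⟩ := h
  obtain ⟨h0', σ', hσ'⟩ := h'
  have a1 : LSeries.abscissaOfAbsConv b < ⊤ :=
    lt_of_le_of_lt (key h0 hσ ((σ : ℝ) : ℂ) (by rw [ofReal_re])).1.abscissaOfAbsConv_le (EReal.coe_lt_top _)
  have a2 : LSeries.abscissaOfAbsConv b' < ⊤ :=
    lt_of_le_of_lt (key h0' hσ' ((σ' : ℝ) : ℂ) (by rw [ofReal_re])).1.abscissaOfAbsConv_le (EReal.coe_lt_top _)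
  have h1 : (fun x : ℝ => LSeries b' x) =ᶠ[atTop] fun x : ℝ => LSeries b x := by
    filter_upwards [eventually_ge_atTop (max σ σ')] with x hx
    rw [(key h0' hσ' (x : ℂ) (by rw [ofReal_re]; exact (le_max_right _ _).trans hx)).2,
      (key h0 hσ (x : ℂ) (by rw [ofReal_re]; exact (le_max_left _ _).trans hx)).2]
  funext n
  rcases eq_or_ne n 0 with rfl | hn
  · rw [h0, h0']
  · exact LSeries.eq_of_LSeries_eventually_eq a2 a1 h1 hn

lemma four_le (i : ℕ) {Λ : ℂ → ℂ} (hΛ : Differentiable ℂ Λ) : ENNReal.ofReal (4 * (rank i Λ : ℝ) ^ 2) ≤ B i Λ := by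
  by_cases h0 : Λ (((i : ℂ) + 1) / 2) = 0
  · have hmem : Λ (((i : ℂ) + 1) / 2 + ((0 : ℝ) : ℂ) * I) = 0 := by
      rw [ofReal_zero, zero_mul, add_zero]
      exact h0
    have h1 := ENNReal.le_tsum (f := fun g : {g : ℝ // Λ (((i : ℂ) + 1) / 2 + g * I) = 0} =>
      ENNReal.ofReal ((analyticOrderNatAt Λ (((i : ℂ) + 1) / 2 + (g : ℝ) * I) : ℝ) ^ 2 / (1 / 4 + (g : ℝ) ^ 2))) ⟨0, hmem⟩
    refine le_trans (le_of_eq ?_) h1
    have e1 : (((i : ℂ) + 1) / 2 + (((0 : ℝ)) : ℂ) * I) = ((i : ℂ) + 1) / 2 := by simp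
    show _ = ENNReal.ofReal ((analyticOrderNatAt Λ (((i : ℂ) + 1) / 2 + (((0 : ℝ)) : ℂ) * I) : ℝ) ^ 2 / (1 / 4 + (0 : ℝ) ^ 2))
    rw [e1]
    unfold rank
    congr 1
    ring
  · have h1 : rank i Λ = 0 := by
      unfold rank analyticOrderNatAt
      rw [(hΛ.analyticAt _).analyticOrderAt_eq_zero.2 h0]
      rfl
    rw [h1]
    simp

/-! ### The zero and the completed function of the object -/

section

open Pool.Agent.Q246.HW (Newform Attached IsCompleted)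
open Pool.Agent.Q246.NC (nco)

/-- `|L(x)| ≥ 1/2` for large real `x` -/
lemma half_le (O : Obj) : ∀ᶠ x : ℝ in atTop, 1 / 2 ≤ ‖O.L (x : ℂ)‖ := by
  obtain ⟨A, hA, hA1⟩ := Pool.Agent.Q211.GB.L_sub_one O.toLFn
  have h2 : Tendsto (fun x : ℝ => A * (2:ℝ) ^ (-(x - 2))) atTop (𝓝 (A * 0)) := by
    refine Tendsto.const_mul A ?_
    have h3 : Tendsto (fun x : ℝ => (2:ℝ) ^ x) atBot (𝓝 0) :=
      tendsto_rpow_atBot_of_base_gt_one 2 (by norm_num)
    refine h3.comp (tendsto_neg_atTop_atBot.comp ?_)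
    exact tendsto_atTop_add_const_right _ (-2) tendsto_id
  rw [mul_zero] at h2
  filter_upwards [h2.eventually_le_const (show (0:ℝ) < 1 / 2 by norm_num), eventually_ge_atTop 2] with x h3 h4
  have h5 := hA1 (x : ℂ) (by simpa using h4)
  rw [Complex.ofReal_re] at h5
  have h7 : ‖(1:ℂ)‖ ≤ ‖O.L (x:ℂ)‖ + ‖O.L (x:ℂ) - 1‖ := by
    have h8 := norm_sub_le (O.L (x:ℂ)) (O.L (x:ℂ) - 1)
    simpa using h8
  rw [norm_one] at h7
  linarith

/-- growth of the gamma factor of a newform on the real axis -/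
lemma grow_newf (g : Newform) {i : ℕ} (h1 : g.k ≤ i + 1) (h2 : 2 ∣ i + 1 - g.k) :
    Tendsto (fun x : ℝ => ‖(g.N : ℂ) ^ ((x : ℂ) / 2) * Gammaℂ ((x : ℂ) + i / 2 - g.twist i)‖) atTop atTop := by
  have hN : (0 : ℝ) < g.N := by have := g.N_pos; exact_mod_cast this
  have htw : (g.twist i : ℂ) = (i + 1 - g.k) / 2 := by
    unfold Newform.twist
    rw [Nat.cast_div h2 (by norm_num), Nat.cast_sub h1]
    push_cast
    rfl
  have h3 := Pool.Agent.Q120.NL.gr 2 (g.N : ℝ)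
    ![-(((((g.k : ℝ) - 1) / 2) : ℝ) : ℂ), -(((((g.k : ℝ) + 1) / 2) : ℝ) : ℂ)] (by norm_num) hN
  refine h3.congr fun x => ?_
  unfold gam
  rw [Fin.prod_univ_two]
  show ‖(((g.N : ℕ) : ℝ) : ℂ) ^ ((x : ℂ) / 2) * (Gammaℝ ((x : ℂ) - -(((((g.k : ℝ) - 1) / 2) : ℝ) : ℂ)) *
    Gammaℝ ((x : ℂ) - -(((((g.k : ℝ) + 1) / 2) : ℝ) : ℂ)))‖ = _
  rw [htw, sub_neg_eq_add, sub_neg_eq_add]
  have e1 : (x : ℂ) + (i : ℂ) / 2 - (i + 1 - g.k) / 2 = (x : ℂ) + ((((g.k : ℝ) - 1) / 2 : ℝ) : ℂ) := by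
    push_cast
    ring
  have e2 : (x : ℂ) + (((((g.k : ℝ) + 1) / 2) : ℝ) : ℂ) = (x : ℂ) + ((((g.k : ℝ) - 1) / 2 : ℝ) : ℂ) + 1 := by
    push_cast
    ring
  rw [e1, e2, Gammaℝ_mul_Gammaℝ_add_one]
  push_cast
  rfl

lemma grow_list {ι : Type*} (γ : ι → ℝ → ℂ) (l : List ι) (hl : l ≠ [])
    (h : ∀ g ∈ l, Tendsto (fun x : ℝ => ‖γ g x‖) atTop atTop) :
    Tendsto (fun x : ℝ => ‖(l.map fun g => γ g x).prod‖) atTop atTop := by
  induction l with
  | nil => exact absurd rfl hl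
  | cons a l ih =>
    have h1 := h a (by simp)
    rcases eq_or_ne l [] with rfl | hne
    · simpa using h1
    · have h2 := ih hne fun c hc => h c (by simp [hc])
      have h3 := h1.atTop_mul_atTop₀ h2
      refine h3.congr fun x => ?_
      rw [List.map_cons, List.prod_cons, norm_mul]

/-- the cohomology, with a zero and the completed function of the object -/
theorem exHD' (H : Facts) {N i : ℕ} {R : ℕ → ℕ → Multiset ℂ} {l : List Newform} (h : Attached N i R l) {F Λ : ℂ → ℂ}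
    (hc : IsCompleted N i R l F Λ) :
    ∃ O : Obj, (∀ s : ℂ, O.L s = F (s + i / 2)) ∧ Concl F O.lam Λ (1 / 2 + (i : ℝ) / 2) ∧ (∃ s : ℂ, O.X s = 0) ∧
      ∃ w : ℂ, w ≠ 0 ∧ ∀ s : ℂ, O.X s = w * Λ (s + (((i : ℝ) / 2 : ℝ) : ℂ)) := by
  obtain ⟨X, hX⟩ := inDX_list (fun (g : Newform) s => (g.N : ℂ) ^ (s / 2) * Gammaℂ (s + i / 2 - g.twist i))
    (fun g => LSeries (nco g.f)) l h.ne (fun g hg => inDX_newf H.eul g (h.weight g hg).1 (h.weight g hg).2)
  obtain ⟨O, hO, hOX, hcon⟩ := hX.concl H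
  obtain ⟨_, _, _, _, _, _, _, _, ⟨hXd, -⟩, -, -, σ, hσ⟩ := hX
  obtain ⟨A, hA⟩ : ∃ A : ℕ, A = (l.map Newform.N).prod := ⟨_, rfl⟩
  have hA1 : 1 ≤ A := by
    rw [hA]
    exact prodN_pos l
  have hAc : (A : ℂ) ≠ 0 := by exact_mod_cast (show A ≠ 0 by omega)
  have hF := fun (s : ℂ) (hs : 1 < s.re) => hF_eq h hc hs
  have hgam : ∀ s : ℂ, (l.map fun g : Newform => (g.N : ℂ) ^ (s / 2) * Gammaℂ (s + i / 2 - g.twist i)).prod =
      (A : ℂ) ^ (s / 2) * (l.map fun g : Newform => Gammaℂ (s + i / 2 - g.twist i)).prod := by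
    intro s
    rw [List.prod_map_mul, hA, prodN_cpow]
  have hk0 : (A : ℂ) ^ (-((i : ℂ) / 4)) ≠ 0 := by
    rw [Ne, Complex.cpow_eq_zero_iff]
    exact fun h => hAc h.1
  have hXΛ : X = fun s => (A : ℂ) ^ (-((i : ℂ) / 4)) * Λ (s + i / 2) := by
    refine Pool.Agent.W355.UN.Pk.uniq (G := fun s => (l.map fun g : Newform => (g.N : ℂ) ^ (s / 2) *
      Gammaℂ (s + i / 2 - g.twist i)).prod * (l.map fun g => LSeries (nco g.f) s).prod)
      ((hc.entire.comp (by fun_prop)).const_mul _) hXd ⟨2, fun s hs => ?_⟩ ⟨σ, hσ⟩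
    have hre : (i : ℝ) / 2 < (s + i / 2).re := by
      have : (s + i / 2).re = s.re + (i : ℝ) / 2 := by
        rw [add_re, show ((i : ℂ) / 2) = (((i : ℝ) / 2 : ℝ) : ℂ) by push_cast; rfl, ofReal_re]
      rw [this]
      linarith
    beta_reduce
    rw [hc.eq _ hre, hF s (by linarith), ← hA, hgam]
    have e1 : (A : ℂ) ^ ((s + i / 2) / 2) = (A : ℂ) ^ ((i : ℂ) / 4) * (A : ℂ) ^ (s / 2) := by
      rw [← Complex.cpow_add _ _ hAc]
      congr 1
      ring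
    have e2 : (A : ℂ) ^ (-((i : ℂ) / 4)) * (A : ℂ) ^ ((i : ℂ) / 4) = 1 := by
      rw [← Complex.cpow_add _ _ hAc, neg_add_cancel, Complex.cpow_zero]
    rw [e1]
    linear_combination ((A : ℂ) ^ (s / 2) * (l.map fun g : Newform => Gammaℂ (s + i / 2 - g.twist i)).prod *
      (l.map fun g => LSeries (nco g.f) s).prod) * e2
  have hO' : ∀ s : ℂ, 2 ≤ s.re → O.L s = (l.map fun g => LSeries (nco g.f) s).prod := hO
  have a1 : Differentiable ℂ fun s : ℂ => F (s + i / 2) := hc.entire_F.comp (by fun_prop)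
  have a3 : ∃ σ : ℝ, ∀ s : ℂ, σ ≤ s.re → O.L s = F (s + i / 2) :=
    ⟨2, fun s hs => (hO' s hs).trans (hF s (by linarith)).symm⟩
  have hOL : O.L = fun s => F (s + i / 2) :=
    Pool.Agent.W355.UN.Pk.uniq (G := fun s => F (s + i / 2)) a1 O.entire ⟨0, fun s _ => rfl⟩ a3
  have hi2 : ((((i : ℝ) / 2 : ℝ)) : ℂ) = (i : ℂ) / 2 := by push_cast; rfl
  refine ⟨O, fun s => congrFun hOL s, concl_shiftR hcon ((i : ℝ) / 2) _ hk0 hXd (fun s _ => ?_) (fun s => ?_), ?_,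
    _, hk0, fun s => ?_⟩
  · rw [hi2]
    exact congrFun hOL s
  · rw [hi2, hXΛ]
  · -- a zero of the completed function
    refine Pool.Agent.Q120.NL.ze O ?_
    have g1 := grow_list (fun (g : Newform) (x : ℝ) => (g.N : ℂ) ^ ((x : ℂ) / 2) * Gammaℂ ((x : ℂ) + i / 2 - g.twist i))
      l h.ne fun g hg => grow_newf g (h.weight g hg).1 (h.weight g hg).2
    have g2 : Tendsto (fun x : ℝ => 1 / 2 * ‖(l.map fun g : Newform => (g.N : ℂ) ^ ((x : ℂ) / 2) *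
        Gammaℂ ((x : ℂ) + i / 2 - g.twist i)).prod‖) atTop atTop := g1.const_mul_atTop (by norm_num)
    refine tendsto_atTop_mono' atTop ?_ g2
    filter_upwards [half_le O, eventually_ge_atTop (max σ 2)] with x h4 h5
    have h6 : O.X (x : ℂ) = (l.map fun g : Newform => (g.N : ℂ) ^ ((x : ℂ) / 2) *
        Gammaℂ ((x : ℂ) + i / 2 - g.twist i)).prod * O.L (x : ℂ) := by
      rw [hOX, hO' (x : ℂ) (by rw [ofReal_re]; exact (le_max_right _ _).trans h5)]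
      exact hσ (x : ℂ) (by rw [ofReal_re]; exact (le_max_left _ _).trans h5)
    rw [h6, norm_mul, mul_comm]
    exact mul_le_mul_of_nonneg_left h4 (norm_nonneg _)
  · rw [hi2, hOX, hXΛ]

end

/-- **The distance formula.** Let `X` be a proper smooth scheme over `ℤ[1/N]` of relative dimension `d`, let `R p i` be the
reciprocal roots of `P_i(X(p), T)`, `p ∤ N`, and let `H^i` be attached to the list `l` of newforms. -/
theorem result (N d i : ℕ) (hN : 1 ≤ N) (X : Scheme.{0})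
    (π : X ⟶ Spec (CommRingCat.of (Localization.Away (N : ℤ)))) [IsProper π] [SmoothOfRelativeDimension d π]
    (R : ℕ → ℕ → Multiset ℂ) (hR : IsWeil X N d R) (hi : i ≤ 2 * d) (l : List Newform) (hl : Attached N i R l) :
    ∃ F Λ : ℂ → ℂ, IsCompleted N i R l F Λ ∧
      (∀ F' Λ' : ℂ → ℂ, IsCompleted N i R l F' Λ' → F' = F ∧ Λ' = Λ) ∧
      (∃! b : ℕ → ℂ, IsCoeff F b) ∧ ∀ b : ℕ → ℂ, IsCoeff F b →
        (∀ M, e2 i b M ≤ d2 i F M) ∧
        ENNReal.ofReal (4 * (rank i Λ : ℝ) ^ 2) ≤ B i Λ ∧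
        B i Λ ≤ liminf (fun M : ℕ => e2 i b M * ENNReal.ofReal (Real.log M)) atTop ∧
        (RiemannHypothesis i Λ → B i Λ ≠ ⊤ ∧
          Tendsto (fun M : ℕ => d2 i F M * ENNReal.ofReal (Real.log M)) atTop (𝓝 (B i Λ)) ∧
          Tendsto (fun M : ℕ => e2 i b M * ENNReal.ofReal (Real.log M)) atTop (𝓝 (B i Λ))) ∧
        (¬ RiemannHypothesis i Λ → ∃ δ : ℝ≥0∞, δ ≠ 0 ∧ ∀ M : ℕ, δ ≤ e2 i b M) ∧
        (RiemannHypothesis i Λ ↔ Tendsto (e2 i b) atTop (𝓝 0)) ∧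
        (RiemannHypothesis i Λ ↔ Tendsto (d2 i F) atTop (𝓝 0)) ∧
        Pool.Agent.Q120.NL.LpLaw (fun n => b n / (((n : ℝ) ^ ((i : ℝ) / 2) : ℝ) : ℂ))
          {x : ℝ | ∃ s : ℂ, Λ s = 0 ∧ s.re = x + (i : ℝ) / 2} := by
  obtain ⟨c, Λ₀, F, hc, hF, h⟩ := exists_hw hl
  obtain ⟨Λ, hΛ⟩ : ∃ Λ : ℂ → ℂ, Λ = fun s => c * Λ₀ (s - i / 2) := ⟨_, rfl⟩
  rw [← hΛ] at h
  obtain ⟨O, hO, H, hz, w, hw, hXΛ⟩ := exHD' facts hl h
  have hcast : ((((1 / 2 : ℝ) + (i : ℝ) / 2 : ℝ)) : ℂ) = ((i : ℂ) + 1) / 2 := by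
    push_cast
    ring
  have l0 : O.lam 0 = 0 := O.lam_zero
  have h0 : IsCoeff F (fun n => O.lam n * (((n : ℝ) ^ ((i : ℝ) / 2) : ℝ) : ℂ)) := by
    refine ⟨by beta_reduce; rw [l0, zero_mul], 2 + (i : ℝ) / 2, fun s hs => ?_⟩
    have hre : (s - i / 2).re = s.re - (i : ℝ) / 2 := by
      rw [sub_re, show ((i : ℂ) / 2) = (((i : ℝ) / 2 : ℝ) : ℂ) by push_cast; rfl, ofReal_re]
    have h1 := O.ser (s - i / 2) (by rw [hre]; linarith)
    rw [hO, sub_add_cancel] at h1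
    refine h1.congr_fun fun n => ?_
    rcases Nat.eq_zero_or_pos n with rfl | hn
    · simp [l0]
    · have hn0 : (n : ℂ) ≠ 0 := by exact_mod_cast hn.ne'
      beta_reduce
      rw [pow_cpow, mul_assoc, ← Complex.cpow_add _ _ hn0]
      congr 2
      ring
  refine ⟨F, Λ, h, fun F' Λ' h' => uniq_hw h h', ⟨_, h0, fun b hb => coeff_uniq h0 hb⟩, fun b hb => ?_⟩
  have hbl : (fun n => b n / (((n : ℝ) ^ ((i : ℝ) / 2) : ℝ) : ℂ)) = O.lam := by
    rw [coeff_uniq h0 hb]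
    funext n
    rcases eq_or_ne n 0 with rfl | hn
    · simp [l0]
    · rw [mul_div_assoc, div_self (pow_ne i hn), mul_one]
  have hd : dd F (1 / 2 + (i : ℝ) / 2) = d2 i F := by
    funext M
    unfold dd d2
    simp only [hcast]
  have he : ee O.lam = e2 i b := by
    rw [← hbl]
    rfl
  have hB : BB Λ (1 / 2 + (i : ℝ) / 2) = B i Λ :=
    BB_pt (f := fun g : ℝ => ((i : ℂ) + 1) / 2 + g * I) fun g => by rw [hcast]
  have hr : (∀ s : ℂ, Λ s = 0 → s.re = 1 / 2 + (i : ℝ) / 2) ↔ RiemannHypothesis i Λ := by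
    have e : (1 / 2 : ℝ) + (i : ℝ) / 2 = ((i : ℝ) + 1) / 2 := by ring
    rw [e]
    rfl
  have h1 := H.le
  have h2 := H.low
  have h3 := H.rh
  have h4 := H.nrh
  have h5 := H.zero_e
  have h6 := H.zero_d
  rw [hd] at h1 h3 h6
  rw [hB] at h2 h3
  rw [he] at h1 h2 h3 h4 h5
  rw [hr] at h3 h4 h5 h6
  refine ⟨h1, four_le i h.entire, h2, h3, h4, h5, h6, ?_⟩
  have h7 := Pool.Agent.Q120.NL.law_all O hz
  rw [Pool.Agent.Q120.NL.RX_shift hw hXΛ, ← hbl] at h7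
  exact h7

end Pool.Agent.Results.MP_7193be_nt.DistanceFormula
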