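import Pool.Agent.Q286.PG.All
import Pool.Agent.Q286.PG.Pw
import Pool.Agent.Q286.XG.HW2
import Pool.Agent.Q286.EW.Out2
import Pool.Agent.Q286.EW.AllU

/-!
# MP_7193be_nt: an effective form of Weil's criterion for the cohomology of a scheme over `ℤ[1/N]`, stable under changes of the polynomials `P_i(X(p), T)` and of the conductor

Let `X` be a proper smooth scheme over `ℤ[1/N]`, and suppose that the L-function of `H^i(X)` is a product of
L-functions of holomorphic newforms, of arbitrary levels and nebentypus characters and of weights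
`k ≤ i + 1`, `k ≡ i + 1 mod 2`, twisted `j = (i + 1 - k)/2` times.  Examples: `H¹` of all modular curves
`X_0(M)`, `X_1(M)` and of their quotients, of all abelian varieties over `ℚ` of `GL₂`-type and their
products (Khare-Wintenberger, Ribet), of all curves of which the Jacobian is such a product; `H³` of the
rigid Calabi-Yau threefolds (Gouvêa-Yui, Dieulefait); `H^i`, `i` odd, of products of these with varieties all of
whose cohomology is algebraic over `ℚ`; `H^i`, `i` odd, of the powers of an elliptic curve over `ℚ` with complex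
multiplication (newforms of the weights `2, 4, …, i + 1`).
Let `Λ(s)` be the completed L-function, `A` its conductor and `m` its degree (the dimension of `H^i`); part (d) of the problem
says that all zeros of `Λ` are on the line `Re s = (i + 1)/2`.

Let `t(p^k)` be the trace of the `k`-th power of Frobenius on `H^i`, which for `p ∤ N` is the sum of the `k`-th powers of the
reciprocal roots of `P_i(X(p), T)`.  Let `W_a` be Weil's quadratic form of `H^i` on the functions on `[-a, a]`: it is written through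
the conductor `A`, the Gamma factor and the traces `t(n)`, `n = p^k ≤ exp (2 a)`, which enter with the weights
`Λ(n) t(n) / n^((i + 1)/2)`.  Part (d) for `H^i` is equivalent to its positivity for all `a` (Weil).
We also consider the form in which the conductor is replaced by a number `Q > 0`, and the weight of `n` is changed by a number `x(n)`; only
the archimedean part is kept.
The functions have degree at least `C a E`, `E = exp (2 a / m)` (trigonometric polynomials on `[-a, a]`), the infinite degree (the whole form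
domain) is included.  The theorem is unconditional.

* (1) For any `b < 2 π A^(-1/m)` there are `C, κ > 0` such that for one large `a` and any `Y ≤ E`: if the form is at least
  `-exp (-Y) ∫ |f|²` then all the zeros of `Λ` with `|Im s| ≤ b E` are at distance at most `2 exp (-κ Y / a)` from the line `Re s = (i + 1)/2`.
  So a lower bound of the spectrum gives the horizontal position of all the zeros up to the height `b E`, in every precision: a bound
  `-E^(-B)`, which is a power of `E`, gives a strip, and an exponentially small bound gives an almost exponentially small distance.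
* (2) For any `c < 2 π m A^(-1/m)` and large `a`: if at finitely many primes `p ∤ N` the reciprocal roots of `P_i(X(p), T)` are replaced by
  arbitrary complex numbers, at most `B` of them, of absolute values at most `θ p^((i + 1)/2)` (`θ < 1`; for example `p^(i/2)`), and `A` by `Q`,
  and the form is nonnegative, then `log (A / Q) ≤ exp (-c E)`, and for all `k ≥ 1` the difference of the sums of the `k`-th powers of the new and
  of the old numbers, times `log p / p^(k (i + 1)/2)`, is at most `K max(0, log (Q / A)) + exp (-c E)`.  So no smaller conductor is possible, and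
  with the true (or a smaller) conductor the positivity determines these `P_i(X(p), T)`, with a doubly exponential accuracy; and if
  `log (Q / A) ≤ exp (-Y)` then the zeros are as in (1).  The same holds for arbitrary changes `x(n)` of finitely many weights.
* (3) If all weights are changed, with bounded total change, and the conductor is not (or very little) increased, and the form is nonnegative, then
  the conductor and each single weight are almost right.
* (4) A summable change `x` of the weights and a conductor `Q ≤ A` give a nonnegative form for arbitrarily large `a` if and only if the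
  Riemann hypothesis holds for `H^i`, `Q = A` and `x = 0`.
* (5) The Riemann hypothesis holds for `H^i` if and only if for arbitrarily large `a` the positivity can be reached by a change of the
  weights of total size at most `exp (ε a)` and of the logarithm of the conductor by at most `exp (ε a)`, for every `ε > 0`; and if
  and only if it can be reached by changes of the weights of the `n ≤ k` (`k` fixed, changes of any size) and of the conductor (at most `B`).
-/

set_option autoImplicit false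

open Complex AlgebraicGeometry CategoryTheory MeasureTheory Filter Topology
open scoped ComplexConjugate
open Pool.Agent.Q246.HW

namespace Pool.Agent.Results.MP_7193be_nt.EffectiveCriterion

/-- The sums `u^k + v^k`, where `u + v = s` and `u v = e`. -/
noncomputable def powers (s e : ℂ) : ℕ → ℂ
  | 0 => 2
  | 1 => s
  | k + 2 => s * powers s e (k + 1) - e * powers s e k

/-- The trace of the `k`-th power of Frobenius at `p` on `H^i` (`k ≥ 1`): the sum of the `k`-th powers of the reciprocal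
roots of `P_i(X(p), T)` for `p ∤ N`, and of the product of the Euler polynomials of the newforms for `p ∣ N`. -/
noncomputable def trace (N i : ℕ) (R : ℕ → ℕ → Multiset ℂ) (l : List Newform) (p k : ℕ) : ℂ :=
  if p ∣ N then (l.map fun g => powers (a g.f p * (p : ℂ) ^ g.twist i) (g.ψ (p : ZMod g.N) * (p : ℂ) ^ i) k).sum
  else ((R p i).map fun α => α ^ k).sum

/-- The Gamma factor `∏ Γ_ℂ(s - j)`, the product over the newforms of the list with `j = (i + 1 - k) / 2`. -/
noncomputable def gamma (i : ℕ) (l : List Newform) (s : ℂ) : ℂ := (l.map fun g => Gammaℂ (s - g.twist i)).prod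

/-- Part (d) of the problem: all zeros of `Λ` have real part `(i + 1)/2`. -/
def RiemannHypothesis (i : ℕ) (Λ : ℂ → ℂ) : Prop := ∀ s : ℂ, Λ s = 0 → s.re = ((i : ℝ) + 1) / 2

/-- The trigonometric polynomials of degree at most `n` on `[-b, b]`, extended by `0`. -/
def Trig (b : ℝ) (n : ℕ) (f : ℝ → ℂ) : Prop := ∃ c : ℤ → ℂ, ∀ x : ℝ,
  f x = if |x| ≤ b then ∑ k ∈ Finset.Icc (-(n : ℤ)) n, c k * cexp ((Real.pi * k * x / b : ℝ) * I) else 0

/-- The Mellin transform of `f` in the logarithmic variable, centred at `(i + 1)/2`. -/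
noncomputable def M (i : ℕ) (f : ℝ → ℂ) (s : ℂ) : ℂ := ∫ x : ℝ, f x * cexp ((s - ((i : ℂ) + 1) / 2) * x)

/-- Weil's quadratic form of `H^i` for functions supported in `[-b, b]`: the conductor and the Gamma factor, and the traces
of Frobenius for the prime powers `n ≤ exp (2 b)`. -/
noncomputable def W (N i : ℕ) (R : ℕ → ℕ → Multiset ℂ) (l : List Newform) (b : ℝ) (f : ℝ → ℂ) : ℝ :=
  1 / (2 * Real.pi) * (∫ x : ℝ, (Real.log ((l.map Newform.N).prod : ℕ) +
    2 * (logDeriv (gamma i l) (((i : ℂ) + 1) / 2 + x * I)).re) * ‖M i f (((i : ℂ) + 1) / 2 + x * I)‖ ^ 2) -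
  2 * (∑ n ∈ Finset.Icc 1 ⌊Real.exp (2 * b)⌋₊,
    ArithmeticFunction.vonMangoldt n / (((n : ℝ) ^ (((i : ℝ) + 1) / 2) : ℝ) : ℂ) *
    trace N i R l n.minFac (n.factorization n.minFac) * ∫ x : ℝ, f (x + Real.log n) * (starRingEnd ℂ) (f x)).re

/-- The form domain: the square integrable functions `f` with support in `[-b, b]` and
`∫ log (3 + |t|) |M f ((i + 1)/2 + i t)|² dt < ∞`. -/
def FormDomain (i : ℕ) (b : ℝ) (f : ℝ → ℂ) : Prop := MemLp f 2 volume ∧ (∀ x : ℝ, b < |x| → f x = 0) ∧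
  Integrable fun t : ℝ => Real.log (3 + |t|) * ‖M i f (((i : ℂ) + 1) / 2 + t * I)‖ ^ 2

/-- The functions of degree at most `ν ≤ ∞`: trigonometric polynomials, or (`ν = ∞`) all functions in the form domain. -/
def Degree (i : ℕ) (b : ℝ) (ν : ℕ∞) (f : ℝ → ℂ) : Prop :=
  (∃ n : ℕ, ν = n ∧ Trig b n f) ∨ (ν = ⊤ ∧ FormDomain i b f)

/-- The degree `ν ≤ ∞` is at least `x`. -/
def Large (x : ℝ) (ν : ℕ∞) : Prop := ∀ n : ℕ, ν = n → x ≤ n

/-- The degree of the L-function, that is the dimension of `H^i`: every newform contributes `2`. -/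
def deg (l : List Newform) : ℕ := 2 * l.length

/-- The conductor of the L-function: the product of the levels of the newforms. -/
def cond (l : List Newform) : ℕ := (l.map Newform.N).prod

/-- Weil's quadratic form of `H^i` with the number `Q` in place of the conductor `A` (which enters through `log A ∫ |f|²`) and with the weight
`Λ(n) t(n) / n^((i + 1)/2)` of `n` (`n ≥ 2`) changed by `x n`. -/
noncomputable def V (N i : ℕ) (R : ℕ → ℕ → Multiset ℂ) (l : List Newform) (Q : ℝ) (x : ℕ → ℂ) (b : ℝ) (f : ℝ → ℂ) : ℝ :=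
  W N i R l b f + Real.log (Q / cond l) * (∫ y : ℝ, ‖f y‖ ^ 2) -
  2 * (∑ n ∈ Finset.Icc 2 ⌊Real.exp (2 * b)⌋₊, x n * ∫ y : ℝ, f (y + Real.log n) * (starRingEnd ℂ) (f y)).re

/-- The form is nonnegative on the functions of degree at most `ν` on `[-b, b]`. -/
def Nonneg (N i : ℕ) (R : ℕ → ℕ → Multiset ℂ) (l : List Newform) (b : ℝ) (ν : ℕ∞) (Q : ℝ) (x : ℕ → ℂ) : Prop :=
  ∀ f : ℝ → ℂ, Degree i b ν f → 0 ≤ V N i R l Q x b f

/-- The change of the weights when, for the primes `p ∈ P`, the reciprocal roots of `P_i(X(p), T)` are replaced by the numbers `S p`: the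
trace at `n = p^k` becomes the sum of their `k`-th powers. -/
noncomputable def change (N i : ℕ) (R : ℕ → ℕ → Multiset ℂ) (l : List Newform) (P : Finset ℕ) (S : ℕ → Multiset ℂ) (n : ℕ) : ℂ :=
  if n.minFac ∈ P then ArithmeticFunction.vonMangoldt n / (((n : ℝ) ^ (((i : ℝ) + 1) / 2) : ℝ) : ℂ) *
    (((S n.minFac).map fun z => z ^ n.factorization n.minFac).sum - trace N i R l n.minFac (n.factorization n.minFac)) else 0

/-! ### The proof -/

lemma powers_eq (s e : ℂ) : ∀ k : ℕ, powers s e k = Pool.Agent.H304R3.HK.ts s e k ∧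
    powers s e (k + 1) = Pool.Agent.H304R3.HK.ts s e (k + 1) := by
  intro k
  induction k with
  | zero => exact ⟨rfl, rfl⟩
  | succ k ih =>
    refine ⟨ih.2, ?_⟩
    show s * powers s e (k + 1) - e * powers s e k =
      s * Pool.Agent.H304R3.HK.ts s e (k + 1) - e * Pool.Agent.H304R3.HK.ts s e k
    rw [ih.1, ih.2]

lemma trace_eq (N i : ℕ) (R : ℕ → ℕ → Multiset ℂ) (l : List Newform) (p k : ℕ) :
    trace N i R l p k = Pool.Agent.Q286.TR.trH N i R l p k := by
  unfold trace Pool.Agent.Q286.TR.trH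
  simp only [(powers_eq _ _ k).1]

/-- a multiset as a family, padded by zeros -/
lemma pad (s : Multiset ℂ) : ∀ d : ℕ, s.card ≤ d → ∃ g : Fin d → ℂ, (∀ j, g j = 0 ∨ g j ∈ s) ∧
    ∀ k : ℕ, 1 ≤ k → ∑ j, g j ^ k = (s.map fun z => z ^ k).sum := by
  induction s using Multiset.induction_on with
  | empty =>
    intro d _
    refine ⟨fun _ => 0, fun _ => Or.inl rfl, fun k hk => ?_⟩
    rw [Finset.sum_eq_zero fun j _ => zero_pow (by omega)]
    simp
  | cons z s ih =>
    intro d hd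
    rw [Multiset.card_cons] at hd
    obtain ⟨d, rfl⟩ : ∃ e, d = e + 1 := ⟨d - 1, by omega⟩
    obtain ⟨g, h1, h2⟩ := ih d (by omega)
    refine ⟨Fin.cons z g, fun j => ?_, fun k hk => ?_⟩
    · refine Fin.cases ?_ (fun j => ?_) j
      · right
        simp
      · rcases h1 j with h | h
        · left
          simpa using h
        · right
          simpa using Or.inr h
    · rw [Fin.sum_univ_succ, Multiset.map_cons, Multiset.sum_cons, ← h2 k hk]
      simp

open Pool.Agent.Q286 in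
lemma outH {N i : ℕ} {R : ℕ → ℕ → Multiset ℂ} {l : List Newform} (h : Attached N i R l) {F Λ : ℂ → ℂ}
    (hc : IsCompleted N i R l F Λ) :
    PG.OutP (V N i R l) (cond l) (RiemannHypothesis i Λ) (((i : ℂ) + 1) / 2) (fun a => Real.exp (2 * a / deg l))
      (2 * Real.pi * deg l * (cond l : ℝ) ^ (-(1 / (deg l : ℝ)))) := by
  obtain ⟨L, hm, hQ, h1, k, hk, h3⟩ := TR.exH2 h hc
  have hm' : L.m = deg l := hm
  have hQ' : L.Q = cond l := hQ
  have hW : ∀ (b : ℝ) (g : ℝ → ℂ), W N i R l b g = TR.W L b g := fun b g => by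
    rw [h1]
    unfold W TR.WH
    simp only [trace_eq]
    rfl
  have hcr : ((i : ℂ) + 1) / 2 = ((((i : ℝ) + 1) / 2 : ℝ) : ℂ) := by push_cast; ring
  have H := PG.outP (L := L) PG.jp PG.pw (V := V N i R l) (Q0 := cond l) (R := RiemannHypothesis i Λ) (c := ((i : ℂ) + 1) / 2) hQ'
    (TR.rh_iff (L := L) (Λ := Λ) (c := ((i : ℂ) + 1) / 2) (r := ((i : ℝ) + 1) / 2) hcr hk h3).symm
    (fun Q x a f _ _ _ => by
      have e1 : Real.log (Q / cond l) = -Real.log (cond l / Q) := by rw [← Real.log_inv, inv_div]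
      unfold V PG.Vx
      rw [hW, e1]
      unfold TR.N PG.Cr
      ring)
  have e1 : PG.EE L = fun a => Real.exp (2 * a / deg l) := by
    funext a
    unfold PG.EE
    rw [hm']
  have e2 : PG.qq L = 2 * Real.pi * deg l * (cond l : ℝ) ^ (-(1 / (deg l : ℝ))) := by
    unfold PG.qq
    rw [hm', hQ']
  rw [e1, e2] at H
  exact H

open Pool.Agent.Q286 in
lemma outHE (hE : EW.S_EffU) {N i : ℕ} {R : ℕ → ℕ → Multiset ℂ} {l : List Newform} (h : Attached N i R l) {F Λ : ℂ → ℂ}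
    (hc : IsCompleted N i R l F Λ) :
    EW.OutE (V N i R l) (cond l) (fun s => Λ s = 0) (((i : ℝ) + 1) / 2) (((i : ℂ) + 1) / 2) (fun a => Real.exp (2 * a / deg l))
      (2 * Real.pi * deg l * (cond l : ℝ) ^ (-(1 / (deg l : ℝ)))) (2 * Real.pi * (cond l : ℝ) ^ (-(1 / (deg l : ℝ)))) := by
  obtain ⟨L, hm, hQ, h1, k, hk, h3⟩ := TR.exH2 h hc
  have hm' : L.m = deg l := hm
  have hQ' : L.Q = cond l := hQ
  have hW : ∀ (b : ℝ) (g : ℝ → ℂ), W N i R l b g = TR.W L b g := fun b g => by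
    rw [h1]
    unfold W TR.WH
    simp only [trace_eq]
    rfl
  have hcr : ((i : ℂ) + 1) / 2 = ((((i : ℝ) + 1) / 2 : ℝ) : ℂ) := by push_cast; ring
  have H := EW.outE (L := L) hE PG.jp PG.pw (V := V N i R l) (Q0 := cond l) (Z := fun s => Λ s = 0) (R := RiemannHypothesis i Λ)
    (r := ((i : ℝ) + 1) / 2) (c := ((i : ℂ) + 1) / 2) hQ'
    (TR.rh_iff (L := L) (Λ := Λ) (c := ((i : ℂ) + 1) / 2) (r := ((i : ℝ) + 1) / 2) hcr hk h3).symm
    (fun s hs => by
      refine ⟨s - (((((i : ℝ) + 1) / 2 - 1 / 2 : ℝ)) : ℂ), ?_, ?_, ?_⟩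
      · have e : s - (((((i : ℝ) + 1) / 2 - 1 / 2 : ℝ)) : ℂ) + (((i : ℂ) + 1) / 2 - 1 / 2) = s := by
          push_cast
          ring
        rw [h3, e, hs, mul_zero]
      · rw [Complex.sub_im, Complex.ofReal_im, sub_zero]
      · rw [Complex.sub_re, Complex.ofReal_re]
        ring)
    (fun Q x a f _ _ _ => by
      have e1 : Real.log (Q / cond l) = -Real.log (cond l / Q) := by rw [← Real.log_inv, inv_div]
      unfold V PG.Vx
      rw [hW, e1]
      unfold TR.N PG.Cr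
      ring)
  have e1 : PG.EE L = fun a => Real.exp (2 * a / deg l) := by
    funext a
    unfold PG.EE
    rw [hm']
  have e2 : PG.qq L = 2 * Real.pi * deg l * (cond l : ℝ) ^ (-(1 / (deg l : ℝ))) := by
    unfold PG.qq
    rw [hm', hQ']
  have e3 : EW.hh L = 2 * Real.pi * (cond l : ℝ) ^ (-(1 / (deg l : ℝ))) := by
    unfold EW.hh
    rw [hm', hQ']
  rw [e1, e2, e3] at H
  exact H

open Pool.Agent.Q286 in
/-- the finite changes -/
lemma finite (hE : EW.S_EffU) {N d i : ℕ} {X : Scheme.{0}} {R : ℕ → ℕ → Multiset ℂ} (hR : IsWeil X N d R) {l : List Newform} (h : Attached N i R l)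
    {F Λ : ℂ → ℂ} (hc : IsCompleted N i R l F Λ) {c b : ℝ} (hc' : c < 2 * Real.pi * deg l * (cond l : ℝ) ^ (-(1 / (deg l : ℝ))))
    (hb : b < 2 * Real.pi * (cond l : ℝ) ^ (-(1 / (deg l : ℝ)))) :
    ∃ C κ : ℝ, 0 < C ∧ 0 < κ ∧
      (∀ (P : Finset ℕ) (B : ℕ) (θ : ℝ), (∀ p ∈ P, p.Prime ∧ ¬ p ∣ N) → θ < 1 → ∃ K A : ℝ, ∀ (a : ℝ) (ν : ℕ∞), A ≤ a →
        Large (C * a * Real.exp (2 * a / deg l)) ν → ∀ (Q : ℝ) (S : ℕ → Multiset ℂ), 0 < Q →
        (∀ p ∈ P, (S p).card ≤ B ∧ ∀ z ∈ S p, ‖z‖ ≤ θ * (p : ℝ) ^ (((i : ℝ) + 1) / 2)) → Nonneg N i R l a ν Q (change N i R l P S) →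
          Real.log (cond l / Q) ≤ Real.exp (-(c * Real.exp (2 * a / deg l))) ∧
          (∀ p ∈ P, ∀ k : ℕ, 1 ≤ k → Real.log p / ((p : ℝ) ^ (((i : ℝ) + 1) / 2)) ^ k *
            ‖((S p).map fun z => z ^ k).sum - ((R p i).map fun z => z ^ k).sum‖ ≤
              K * max 0 (Real.log (Q / cond l)) + Real.exp (-(c * Real.exp (2 * a / deg l)))) ∧
          ∀ Y : ℝ, Y ≤ Real.exp (2 * a / deg l) → Real.log (Q / cond l) ≤ Real.exp (-Y) →
            ∀ s : ℂ, Λ s = 0 → |s.im| ≤ b * Real.exp (2 * a / deg l) → |s.re - ((i : ℝ) + 1) / 2| ≤ 2 * Real.exp (-(κ * Y / a))) ∧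
      ∀ k : ℕ, ∃ K A : ℝ, ∀ (a : ℝ) (ν : ℕ∞), A ≤ a → Large (C * a * Real.exp (2 * a / deg l)) ν →
        ∀ (Q : ℝ) (x : ℕ → ℂ), 0 < Q → (∀ n, k < n → x n = 0) → Nonneg N i R l a ν Q x →
          Real.log (cond l / Q) ≤ Real.exp (-(c * Real.exp (2 * a / deg l))) ∧
          (∀ n, 2 ≤ n → n ≤ k → ‖x n‖ ≤ K * max 0 (Real.log (Q / cond l)) + Real.exp (-(c * Real.exp (2 * a / deg l)))) ∧
          ∀ Y : ℝ, Y ≤ Real.exp (2 * a / deg l) → Real.log (Q / cond l) ≤ Real.exp (-Y) →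
            ∀ s : ℂ, Λ s = 0 → |s.im| ≤ b * Real.exp (2 * a / deg l) → |s.re - ((i : ℝ) + 1) / 2| ≤ 2 * Real.exp (-(κ * Y / a)) := by
  obtain ⟨C, κ, hC, hκ, h1, h2⟩ := (outHE hE h hc).eff c b hc' hb
  refine ⟨C, κ, hC, hκ, fun P B θ hP hθ => ?_, fun k => ?_⟩
  swap
  · obtain ⟨K, A, -, h3⟩ := h1 k
    exact ⟨K, A, h3⟩
  have hlog : ∀ p ∈ P, 0 < Real.log p := fun p hp => Real.log_pos (by exact_mod_cast (hP p hp).1.one_lt)
  have hs2 : (Real.sqrt 2)⁻¹ < 1 := inv_lt_one_of_one_lt₀ (Real.lt_sqrt_of_sq_lt (by norm_num))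
  have hs0 : 0 ≤ (Real.sqrt 2)⁻¹ := inv_nonneg.2 (Real.sqrt_nonneg 2)
  obtain ⟨K, A, -, h3⟩ := h2 P (fun p hp => (hP p hp).1.two_le) (max B (P.sup fun p => (R p i).card)) (max θ (Real.sqrt 2)⁻¹)
    (max_lt hθ hs2)
  refine ⟨K, A, fun a ν ha hν Q S hQ hS hp => ?_⟩
  have hα : ∀ p ∈ P, ∃ g : Fin (max B (P.sup fun p => (R p i).card)) → ℂ, (∀ j, g j = 0 ∨ g j ∈ R p i) ∧
      ∀ k : ℕ, 1 ≤ k → ∑ j, g j ^ k = ((R p i).map fun z => z ^ k).sum := fun p hp =>
    pad _ _ ((Finset.le_sup (f := fun p => (R p i).card) hp).trans (le_max_right _ _))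
  have hβ : ∀ p ∈ P, ∃ g : Fin (max B (P.sup fun p => (R p i).card)) → ℂ, (∀ j, g j = 0 ∨ g j ∈ S p) ∧
      ∀ k : ℕ, 1 ≤ k → ∑ j, g j ^ k = ((S p).map fun z => z ^ k).sum := fun p hp =>
    pad _ _ ((hS p hp).1.trans (le_max_left _ _))
  choose! α hα1 hα2 using hα
  choose! β hβ1 hβ2 using hβ
  -- the normalisation
  have hq0 : ∀ p ∈ P, 0 < (p : ℝ) ^ (((i : ℝ) + 1) / 2) := fun p hp => Real.rpow_pos_of_pos (by exact_mod_cast (hP p hp).1.pos) _
  have hnα : ∀ p ∈ P, ∀ j, ‖α p j / (((p : ℝ) ^ (((i : ℝ) + 1) / 2) : ℝ) : ℂ)‖ ≤ max θ (Real.sqrt 2)⁻¹ := by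
    intro p hp j
    have hp2 : (2 : ℝ) ≤ p := by exact_mod_cast (hP p hp).1.two_le
    have hp0 : (0 : ℝ) < p := by linarith
    refine le_trans ?_ (le_max_right _ _)
    rcases hα1 p hp j with h4 | h4
    · rw [h4, zero_div, norm_zero]
      exact hs0
    · have h5 := hR.weight p i (hP p hp).1 (hP p hp).2 _ h4
      rw [norm_div, Complex.norm_real, Real.norm_of_nonneg (hq0 p hp).le, h5, ← Real.rpow_sub hp0]
      have e1 : (i : ℝ) / 2 - ((i : ℝ) + 1) / 2 = -(1 / 2) := by ring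
      rw [e1, Real.rpow_neg hp0.le, ← Real.sqrt_eq_rpow]
      exact inv_anti₀ (Real.sqrt_pos.2 (by norm_num)) (Real.sqrt_le_sqrt hp2)
  have hnβ : ∀ p ∈ P, ∀ j, ‖β p j / (((p : ℝ) ^ (((i : ℝ) + 1) / 2) : ℝ) : ℂ)‖ ≤ max θ (Real.sqrt 2)⁻¹ := by
    intro p hp j
    rcases hβ1 p hp j with h4 | h4
    · rw [h4, zero_div, norm_zero]
      exact hs0.trans (le_max_right _ _)
    · refine le_trans ?_ (le_max_left _ _)
      rw [norm_div, Complex.norm_real, Real.norm_of_nonneg (hq0 p hp).le, div_le_iff₀ (hq0 p hp)]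
      exact (hS p hp).2 _ h4
  have hch : ∀ p ∈ P, ∀ k, 1 ≤ k → change N i R l P S (p ^ k) = ((Real.log p / ((p : ℝ) ^ (((i : ℝ) + 1) / 2)) ^ k : ℝ) : ℂ) *
      (((S p).map fun z => z ^ k).sum - ((R p i).map fun z => z ^ k).sum) := by
    intro p hp k hk
    have hpp := (hP p hp).1
    unfold change
    rw [hpp.pow_minFac (by omega), if_pos hp, ArithmeticFunction.vonMangoldt_apply_pow (by omega), ArithmeticFunction.vonMangoldt_apply_prime hpp,
      hpp.factorization_pow, Finsupp.single_eq_same]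
    unfold trace
    rw [if_neg (hP p hp).2, Nat.cast_pow, ← Real.rpow_natCast (p : ℝ) k, ← Real.rpow_mul (Nat.cast_nonneg p), mul_comm (k : ℝ),
      Real.rpow_mul (Nat.cast_nonneg p), Real.rpow_natCast]
    push_cast
    ring
  have hx : ∀ p ∈ P, ∀ k, 1 ≤ k → change N i R l P S (p ^ k) = Real.log p *
      (∑ j, (β p j / (((p : ℝ) ^ (((i : ℝ) + 1) / 2) : ℝ) : ℂ)) ^ k - ∑ j, (α p j / (((p : ℝ) ^ (((i : ℝ) + 1) / 2) : ℝ) : ℂ)) ^ k) := by
    intro p hp k hk
    have h0 : (((p : ℝ) ^ (((i : ℝ) + 1) / 2) : ℝ) : ℂ) ≠ 0 := by exact_mod_cast (hq0 p hp).ne'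
    rw [hch p hp k hk]
    simp only [div_pow, ← Finset.sum_div]
    rw [hα2 p hp k hk, hβ2 p hp k hk]
    push_cast
    field_simp
  obtain ⟨h4, h5, h6⟩ := h3 a ν ha hν Q (change N i R l P S) (fun p j => α p j / (((p : ℝ) ^ (((i : ℝ) + 1) / 2) : ℝ) : ℂ))
    (fun p j => β p j / (((p : ℝ) ^ (((i : ℝ) + 1) / 2) : ℝ) : ℂ)) hQ (fun p hp j => ⟨hnα p hp j, hnβ p hp j⟩)
    (fun n hn hn2 => by
      unfold change
      by_cases h4 : n.minFac ∈ P
      · rw [if_pos h4]
        have h5 : ArithmeticFunction.vonMangoldt n = 0 := by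
          rw [ArithmeticFunction.vonMangoldt_eq_zero_iff]
          rintro ⟨p, k, hp, hk, rfl⟩
          have hp' := hp.nat_prime
          rw [hp'.pow_minFac (by omega)] at h4
          exact hn2 p h4 k rfl
        rw [h5]
        simp
      · rw [if_neg h4])
    hx hp
  refine ⟨h4, fun p hp k hk => ?_, h6⟩
  have h7 := h5 p hp k hk
  rwa [hch p hp k hk, norm_mul, Complex.norm_real, Real.norm_of_nonneg (div_nonneg (hlog p hp).le (pow_nonneg (hq0 p hp).le _))] at h7

lemma cond_pos (l : List Newform) : (0 : ℝ) < cond l := by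
  have h : 0 < cond l := by
    unfold cond
    induction l with
    | nil => simp
    | cons a l ih =>
      rw [List.map_cons, List.prod_cons]
      exact Nat.mul_pos a.N_pos ih
  exact_mod_cast h

/-- the form with the conductor `A exp d` -/
lemma V_zero (N i : ℕ) (R : ℕ → ℕ → Multiset ℂ) (l : List Newform) {d : ℝ} {b : ℝ} (f : ℝ → ℂ) :
    V N i R l (cond l * Real.exp d) (fun _ => 0) b f = W N i R l b f + d * (∫ y : ℝ, ‖f y‖ ^ 2) := by
  unfold V
  rw [mul_div_assoc, mul_comm (cond l : ℝ), div_mul_cancel₀ _ (cond_pos l).ne', Real.log_exp]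
  simp

/-- **The theorem.** Let `X` be a proper smooth scheme over `ℤ[1/N]` of relative dimension `d`, let `R p i` be the
reciprocal roots of `P_i(X(p), T)`, `p ∤ N`, and let `H^i` be attached to the list `l` of newforms. -/
theorem result (N d i : ℕ) (hN : 1 ≤ N) (X : Scheme.{0})
    (π : X ⟶ Spec (CommRingCat.of (Localization.Away (N : ℤ)))) [IsProper π] [SmoothOfRelativeDimension d π]
    (R : ℕ → ℕ → Multiset ℂ) (hR : IsWeil X N d R) (hi : i ≤ 2 * d) (l : List Newform) (hl : Attached N i R l) :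
    ∃ F Λ : ℂ → ℂ, IsCompleted N i R l F Λ ∧
      (∀ F' Λ' : ℂ → ℂ, IsCompleted N i R l F' Λ' → F' = F ∧ Λ' = Λ) ∧
      (∀ c b : ℝ, c < 2 * Real.pi * deg l * (cond l : ℝ) ^ (-(1 / (deg l : ℝ))) → b < 2 * Real.pi * (cond l : ℝ) ^ (-(1 / (deg l : ℝ))) →
        ∃ C κ : ℝ, 0 < C ∧ 0 < κ ∧
        (∃ A : ℝ, ∀ (a Y : ℝ) (ν : ℕ∞), A ≤ a → Y ≤ Real.exp (2 * a / deg l) → Large (C * a * Real.exp (2 * a / deg l)) ν →
          (∀ f : ℝ → ℂ, Degree i a ν f → -(Real.exp (-Y) * ∫ y : ℝ, ‖f y‖ ^ 2) ≤ W N i R l a f) →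
            ∀ s : ℂ, Λ s = 0 → |s.im| ≤ b * Real.exp (2 * a / deg l) → |s.re - ((i : ℝ) + 1) / 2| ≤ 2 * Real.exp (-(κ * Y / a))) ∧
        (∀ (P : Finset ℕ) (B : ℕ) (θ : ℝ), (∀ p ∈ P, p.Prime ∧ ¬ p ∣ N) → θ < 1 → ∃ K A : ℝ, ∀ (a : ℝ) (ν : ℕ∞), A ≤ a →
          Large (C * a * Real.exp (2 * a / deg l)) ν → ∀ (Q : ℝ) (S : ℕ → Multiset ℂ), 0 < Q →
          (∀ p ∈ P, (S p).card ≤ B ∧ ∀ z ∈ S p, ‖z‖ ≤ θ * (p : ℝ) ^ (((i : ℝ) + 1) / 2)) → Nonneg N i R l a ν Q (change N i R l P S) →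
            Real.log (cond l / Q) ≤ Real.exp (-(c * Real.exp (2 * a / deg l))) ∧
            (∀ p ∈ P, ∀ k : ℕ, 1 ≤ k → Real.log p / ((p : ℝ) ^ (((i : ℝ) + 1) / 2)) ^ k *
              ‖((S p).map fun z => z ^ k).sum - ((R p i).map fun z => z ^ k).sum‖ ≤
                K * max 0 (Real.log (Q / cond l)) + Real.exp (-(c * Real.exp (2 * a / deg l)))) ∧
            ∀ Y : ℝ, Y ≤ Real.exp (2 * a / deg l) → Real.log (Q / cond l) ≤ Real.exp (-Y) →
              ∀ s : ℂ, Λ s = 0 → |s.im| ≤ b * Real.exp (2 * a / deg l) → |s.re - ((i : ℝ) + 1) / 2| ≤ 2 * Real.exp (-(κ * Y / a))) ∧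
        ∀ k : ℕ, ∃ K A : ℝ, ∀ (a : ℝ) (ν : ℕ∞), A ≤ a → Large (C * a * Real.exp (2 * a / deg l)) ν →
          ∀ (Q : ℝ) (x : ℕ → ℂ), 0 < Q → (∀ n, k < n → x n = 0) → Nonneg N i R l a ν Q x →
            Real.log (cond l / Q) ≤ Real.exp (-(c * Real.exp (2 * a / deg l))) ∧
            (∀ n, 2 ≤ n → n ≤ k → ‖x n‖ ≤ K * max 0 (Real.log (Q / cond l)) + Real.exp (-(c * Real.exp (2 * a / deg l)))) ∧
            ∀ Y : ℝ, Y ≤ Real.exp (2 * a / deg l) → Real.log (Q / cond l) ≤ Real.exp (-Y) →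
              ∀ s : ℂ, Λ s = 0 → |s.im| ≤ b * Real.exp (2 * a / deg l) → |s.re - ((i : ℝ) + 1) / 2| ≤ 2 * Real.exp (-(κ * Y / a))) ∧
      ∃ C : ℝ, 0 < C ∧
        (∀ (B ε : ℝ) (k : ℕ), 0 < ε → ∃ A δ : ℝ, 0 < δ ∧ ∀ (a : ℝ) (ν : ℕ∞), A ≤ a → Large (C * a * Real.exp (2 * a / deg l)) ν →
          ∀ (Q : ℝ) (x : ℕ → ℂ), 0 < Q → Real.log (Q / cond l) ≤ δ → ∑ n ∈ Finset.Icc 2 ⌊Real.exp (2 * a)⌋₊, ‖x n‖ ≤ B →
            Nonneg N i R l a ν Q x → Real.log (cond l / Q) ≤ ε ∧ ∀ n, 2 ≤ n → n ≤ k → ‖x n‖ ≤ ε) ∧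
        (∀ (Q : ℝ) (x : ℕ → ℂ), 0 < Q → Q ≤ cond l → (Summable fun n => ‖x n‖) →
          ((∀ A : ℝ, ∃ (a : ℝ) (ν : ℕ∞), A ≤ a ∧ Large (C * a * Real.exp (2 * a / deg l)) ν ∧ Nonneg N i R l a ν Q x) ↔
            RiemannHypothesis i Λ ∧ Q = cond l ∧ ∀ n, 2 ≤ n → x n = 0)) ∧
        (RiemannHypothesis i Λ ↔ ∀ ε : ℝ, 0 < ε → ∀ A : ℝ, ∃ (a : ℝ) (ν : ℕ∞) (Q : ℝ) (x : ℕ → ℂ), A ≤ a ∧
          Large (C * a * Real.exp (2 * a / deg l)) ν ∧ 0 < Q ∧ Real.log (Q / cond l) ≤ Real.exp (ε * a) ∧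
          ∑ n ∈ Finset.Icc 2 ⌊Real.exp (2 * a)⌋₊, ‖x n‖ ≤ Real.exp (ε * a) ∧ Nonneg N i R l a ν Q x) ∧
        ∀ (k : ℕ) (B : ℝ), cond l ≤ B → (RiemannHypothesis i Λ ↔ ∀ A : ℝ, ∃ (a : ℝ) (ν : ℕ∞) (Q : ℝ) (x : ℕ → ℂ), A ≤ a ∧
          Large (C * a * Real.exp (2 * a / deg l)) ν ∧ 0 < Q ∧ Q ≤ B ∧ (∀ n, k < n → x n = 0) ∧ Nonneg N i R l a ν Q x) := by
  obtain ⟨c, Λ₀, F, hc, hF, h⟩ := exists_hw hl
  refine ⟨F, _, h, fun F' Λ' h' => uniq_hw h h', fun c b hc hb => ?_, (outH hl h).bnd⟩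
  obtain ⟨C, κ, hC, hκ, h1, h2⟩ := finite Pool.Agent.Q286.EW.effU_all hR hl h hc hb
  refine ⟨C, κ, hC, hκ, ?_, h1, h2⟩
  obtain ⟨K, A, h3⟩ := h2 0
  have hQ := cond_pos l
  refine ⟨A, fun a Y ν ha hY hν hp => ?_⟩
  refine (h3 a ν ha hν (cond l * Real.exp (Real.exp (-Y))) (fun _ => 0) (by positivity) (fun _ _ => rfl) (fun f hf => ?_)).2.2 Y hY ?_
  · rw [V_zero]
    linarith [hp f hf]
  · rw [mul_div_assoc, mul_comm (cond l : ℝ), div_mul_cancel₀ _ hQ.ne', Real.log_exp]

end Pool.Agent.Results.MP_7193be_nt.EffectiveCriterion
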