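import Pool.Agent.Q286.XG.AllN
import Pool.Agent.Q286.XG.HW2

/-!
# Extremal functions of Weil's quadratic form attached to the cohomology of a scheme over `ℤ[1/N]`

Let `X` be a proper smooth scheme over `ℤ[1/N]`, and suppose that the L-function of `H^i(X)` is a product of
L-functions of holomorphic newforms, of arbitrary levels and nebentypus characters and of weights
`k ≤ i + 1`, `k ≡ i + 1 mod 2`, twisted `j = (i + 1 - k)/2` times.  Examples: `H¹` of all modular curves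
`X_0(M)`, `X_1(M)` and of their quotients, of all abelian varieties over `ℚ` of `GL₂`-type and their
products (Khare-Wintenberger, Ribet), of all curves of which the Jacobian is such a product; `H³` of the
rigid Calabi-Yau threefolds (Gouvêa-Yui, Dieulefait); `H^i`, `i` odd, of products of these with varieties all of
whose cohomology is algebraic over `ℚ`; `H^i`, `i` odd, of the powers of an elliptic curve over `ℚ` with complex
multiplication (newforms of the weights `2, 4, …, i + 1`).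
Let `Λ(s)` be the completed L-function; part (d) of the problem says that all its zeros are on the line
`Re s = (i + 1)/2`.

Let `t(p^k)` be the trace of the `k`-th power of Frobenius on `H^i`, which for `p ∤ N` is determined by the numbers of
points of `X` over the finite fields.  For `a > 0` let `W a` be Weil's quadratic form of `H^i` on the functions on
`[-a, a]`, written through the conductor, the Gamma factor and the numbers `t(p^k)` with `p^k ≤ exp (2 a)`; no zero of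
`Λ` enters.  We put `W2 a f = W a f + W a (conj f)` (which is `2 W` if `Λ(i + 1 - s) = ± Λ(s)`).  Let `c = (i + 1)/2` and
`M f s = ∫ f(x) exp ((s - c) x) dx`.  An extremal function of degree `ν` minimises `W2 a` under the condition
`M f c = 1`, among the trigonometric polynomials of degree at most `ν` on `[-a, a]`, or (`ν = ∞`) among all functions in the
form domain: then there is no truncation, and only the length of the interval remains.

Assume the Riemann hypothesis for `H^i`, let `ω` be the order of the zero of `Λ` at `c` (for odd `i` the conjectural rank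
of a group of algebraic cycles), and `Xred s = ∏ (1 - ((s - c) / (ρ - c))²)` the product over the distinct zeros in the
upper half plane (of the product of `Λ` with its dual).

* For every `a > 0` and every degree `ν ≤ ∞` there is exactly one extremal function `f`; it is even and real, and all
  zeros of `M f` are on the line `Re s = c`.
* The smallest value `W2 a f` is larger than `2 ω`, and tends to it: `W2 a f ≤ 2 ω + exp (- b a² log a)` for every `b`
  and all degrees `ν ≥ K(b) a²`.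
* `M f` tends to `Xred`, locally uniformly, and every zero of `Xred` is within `exp (- b a² log a)` of a zero of `M f`.
* For the degrees `ν ≥ K(b) a exp (a / m)` (in particular for `ν = ∞`) the accuracy is doubly exponential: the
  distances to `2 ω` and to the zeros are at most `exp (- b exp (a / m))` for every `b < 4 π m A^(-1/m)`, where `A` is the
  conductor and `m` the dimension of `H^i`; if `Λ(i + 1 - s) = ± Λ(s)` they are at most `exp (- b exp (2 a / m))` for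
  every `b < 2 π m A^(-1/m)` and the degrees `ν ≥ K(b) a exp (2 a / m)`.

If the Riemann hypothesis for `H^i` fails there is no extremal function for large `a`, in any degree `n(a)` with
`n(a) / a → ∞`: the form is not bounded from below under the condition `M f c = 1`.  So the Riemann hypothesis for `H^i`
holds if and only if there are extremal functions for arbitrarily large `a`, in the degrees `n(a)`, and also if and only
if there are for `ν = ∞`.
-/

set_option autoImplicit false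

open Complex AlgebraicGeometry CategoryTheory MeasureTheory Filter Topology
open scoped ComplexConjugate
open Pool.Agent.Q246.HW

namespace Pool.Agent.Results.MP_7193be_nt.ExtremalFunctions

/-- The sums `u^k + v^k`, where `u + v = s` and `u v = e`. -/
noncomputable def powers (s e : ℂ) : ℕ → ℂ
  | 0 => 2
  | 1 => s
  | k + 2 => s * powers s e (k + 1) - e * powers s e k

/-- The trace of the `k`-th power of Frobenius at `p` on `H^i` (`k ≥ 1`): the sum of the `k`-th powers of the reciprocal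
roots of `P_i(X(p), T)` for `p ∤ N`, and of the product of the Euler polynomials of the newforms for `p ∣ N`. -/
noncomputable def trace (N i : ℕ) (R : ℕ → ℕ → Multiset ℂ) (l : List Newform) (p k : ℕ) : ℂ :=
  if p ∣ N then (l.map fun g => powers (a g.f p * (p : ℂ) ^ g.twist i) (g.ψ (p : ZMod g.N) * (p : ℂ) ^ i) k).sum
  else ((R p i).map fun α => α ^ k).sum

/-- The Gamma factor `∏ Γ_ℂ(s - j)`, the product over the newforms of the list with `j = (i + 1 - k) / 2`. -/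
noncomputable def gamma (i : ℕ) (l : List Newform) (s : ℂ) : ℂ := (l.map fun g => Gammaℂ (s - g.twist i)).prod

/-- Part (d) of the problem: all zeros of `Λ` have real part `(i + 1)/2`. -/
def RiemannHypothesis (i : ℕ) (Λ : ℂ → ℂ) : Prop := ∀ s : ℂ, Λ s = 0 → s.re = ((i : ℝ) + 1) / 2

/-! ### The quadratic form and the extremal functions -/

/-- The trigonometric polynomials of degree at most `n` on `[-b, b]`, extended by `0`. -/
def Trig (b : ℝ) (n : ℕ) (f : ℝ → ℂ) : Prop := ∃ c : ℤ → ℂ, ∀ x : ℝ,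
  f x = if |x| ≤ b then ∑ k ∈ Finset.Icc (-(n : ℤ)) n, c k * cexp ((Real.pi * k * x / b : ℝ) * I) else 0

/-- The Mellin transform of `f` in the logarithmic variable, centred at `(i + 1)/2`. -/
noncomputable def M (i : ℕ) (f : ℝ → ℂ) (s : ℂ) : ℂ := ∫ x : ℝ, f x * cexp ((s - ((i : ℂ) + 1) / 2) * x)

/-- Weil's quadratic form of `H^i` for functions supported in `[-b, b]`: the conductor and the Gamma factor, and the traces
of Frobenius for the prime powers `n ≤ exp (2 b)`. -/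
noncomputable def W (N i : ℕ) (R : ℕ → ℕ → Multiset ℂ) (l : List Newform) (b : ℝ) (f : ℝ → ℂ) : ℝ :=
  1 / (2 * Real.pi) * (∫ x : ℝ, (Real.log ((l.map Newform.N).prod : ℕ) +
    2 * (logDeriv (gamma i l) (((i : ℂ) + 1) / 2 + x * I)).re) * ‖M i f (((i : ℂ) + 1) / 2 + x * I)‖ ^ 2) -
  2 * (∑ n ∈ Finset.Icc 1 ⌊Real.exp (2 * b)⌋₊,
    ArithmeticFunction.vonMangoldt n / (((n : ℝ) ^ (((i : ℝ) + 1) / 2) : ℝ) : ℂ) *
    trace N i R l n.minFac (n.factorization n.minFac) * ∫ x : ℝ, f (x + Real.log n) * (starRingEnd ℂ) (f x)).re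

/-- The form `W f + W (conj f)`: Weil's form of `H^i` plus its dual. -/
noncomputable def W2 (N i : ℕ) (R : ℕ → ℕ → Multiset ℂ) (l : List Newform) (b : ℝ) (f : ℝ → ℂ) : ℝ :=
  W N i R l b f + W N i R l b fun x => (starRingEnd ℂ) (f x)

/-- The reduced function: the product over the distinct zeros in the upper half plane of the product of `Λ` with its
dual. -/
noncomputable def Xred (i : ℕ) (Λ : ℂ → ℂ) (s : ℂ) : ℂ :=
  ∏' z : {z : ℂ // (Λ z = 0 ∨ Λ ((starRingEnd ℂ) z) = 0) ∧ 0 < z.im},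
    (1 - (s - ((i : ℂ) + 1) / 2) ^ 2 / ((z : ℂ) - ((i : ℂ) + 1) / 2) ^ 2)

/-- The form domain: the square integrable functions `f` with support in `[-b, b]` and
`∫ log (3 + |t|) |M f ((i + 1)/2 + i t)|² dt < ∞`. -/
def FormDomain (i : ℕ) (b : ℝ) (f : ℝ → ℂ) : Prop := MemLp f 2 volume ∧ (∀ x : ℝ, b < |x| → f x = 0) ∧
  Integrable fun t : ℝ => Real.log (3 + |t|) * ‖M i f (((i : ℂ) + 1) / 2 + t * I)‖ ^ 2

/-- The functions of degree at most `ν ≤ ∞`: trigonometric polynomials, or (`ν = ∞`) all functions in the form domain. -/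
def Degree (i : ℕ) (b : ℝ) (ν : ℕ∞) (f : ℝ → ℂ) : Prop :=
  (∃ n : ℕ, ν = n ∧ Trig b n f) ∨ (ν = ⊤ ∧ FormDomain i b f)

/-- `f` is an extremal function of degree `ν` of the form `F`: it minimises `F` under the condition `M f ((i + 1)/2) = 1`. -/
def Extremal (F : ℝ → (ℝ → ℂ) → ℝ) (i : ℕ) (b : ℝ) (ν : ℕ∞) (f : ℝ → ℂ) : Prop :=
  Degree i b ν f ∧ M i f (((i : ℂ) + 1) / 2) = 1 ∧ ∀ g : ℝ → ℂ, Degree i b ν g → M i g (((i : ℂ) + 1) / 2) = 1 → F b f ≤ F b g

/-- The order of the zero of `Λ` at `(i + 1)/2` (`0` if there is none). -/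
noncomputable def order0 (i : ℕ) (Λ : ℂ → ℂ) : ℕ := analyticOrderNatAt Λ (((i : ℂ) + 1) / 2)

/-- The degree `ν ≤ ∞` is at least `x`. -/
def Large (x : ℝ) (ν : ℕ∞) : Prop := ∀ n : ℕ, ν = n → x ≤ n

/-- The degree of the L-function, that is the dimension of `H^i`: every newform contributes `2`. -/
def deg (l : List Newform) : ℕ := 2 * l.length

/-- The conductor of the L-function: the product of the levels of the newforms. -/
def cond (l : List Newform) : ℕ := (l.map Newform.N).prod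

/-! ### The proof -/

lemma powers_eq (s e : ℂ) : ∀ k : ℕ, powers s e k = Pool.Agent.H304R3.HK.ts s e k ∧
    powers s e (k + 1) = Pool.Agent.H304R3.HK.ts s e (k + 1) := by
  intro k
  induction k with
  | zero => exact ⟨rfl, rfl⟩
  | succ k ih =>
    refine ⟨ih.2, ?_⟩
    show s * powers s e (k + 1) - e * powers s e k =
      s * Pool.Agent.H304R3.HK.ts s e (k + 1) - e * Pool.Agent.H304R3.HK.ts s e k
    rw [ih.1, ih.2]

lemma trace_eq (N i : ℕ) (R : ℕ → ℕ → Multiset ℂ) (l : List Newform) (p k : ℕ) :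
    trace N i R l p k = Pool.Agent.Q286.TR.trH N i R l p k := by
  unfold trace Pool.Agent.Q286.TR.trH
  simp only [(powers_eq _ _ k).1]

open Pool.Agent.Q286.XG in
lemma outH {N i : ℕ} {R : ℕ → ℕ → Multiset ℂ} {l : List Newform} (h : Attached N i R l) {F Λ : ℂ → ℂ}
    (hc : IsCompleted N i R l F Λ) :
    Pool.Agent.Q286.XG.OutX (W2 N i R l) Λ (fun z => (Λ z = 0 ∨ Λ ((starRingEnd ℂ) z) = 0) ∧ 0 < z.im) (((i : ℂ) + 1) / 2)
      (((i : ℝ) + 1) / 2) (2 * order0 i Λ) (fun a => Real.exp (a / deg l))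
      (2 * Real.pi * deg l * (cond l : ℝ) ^ (-(1 / (deg l : ℝ)))) ∧
    Pool.Agent.Q286.XG.OutN (W2 N i R l) Λ (((i : ℂ) + 1) / 2) (((i : ℝ) + 1) / 2) (2 * order0 i Λ) (fun a => Real.exp (a / deg l))
      (2 * Real.pi * deg l * (cond l : ℝ) ^ (-(1 / (deg l : ℝ)))) ∧
    ((∃ ε : ℂ, ε ≠ 0 ∧ ∀ s : ℂ, Λ (i + 1 - s) = ε * Λ s) →
      (∀ (a : ℝ) (ν : ℕ∞) (f : ℝ → ℂ), 0 < a → Degree i a ν f → W2 N i R l a f = 2 * W N i R l a f) ∧
      Pool.Agent.Q286.XG.OutN (W2 N i R l) Λ (((i : ℂ) + 1) / 2)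
      (((i : ℝ) + 1) / 2) (2 * order0 i Λ) (fun a => Real.exp (2 * a / deg l))
      (Real.pi * deg l * (cond l : ℝ) ^ (-(1 / (deg l : ℝ))))) := by
  obtain ⟨L, hm, hQ, h1, k, hk, h3⟩ := Pool.Agent.Q286.TR.exH2 h hc
  have hm' : L.m = deg l := hm
  have hQ' : L.Q = cond l := hQ
  have hW : ∀ (b : ℝ) (g : ℝ → ℂ), W N i R l b g = Pool.Agent.Q286.TR.W L b g := fun b g => by
    rw [h1]
    unfold W Pool.Agent.Q286.TR.WH
    simp only [trace_eq]
    rfl
  have hW2 : ∀ (b : ℝ) (g : ℝ → ℂ), W2 N i R l b g = Pool.Agent.Q286.TR.W2 L b g := fun b g => by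
    unfold W2 Pool.Agent.Q286.TR.W2
    rw [hW, hW]
  have hcr : ((i : ℂ) + 1) / 2 = ((((i : ℝ) + 1) / 2 : ℝ) : ℂ) := by push_cast; ring
  refine ⟨?_, ?_, ?_⟩
  · have H := outDual (L := L) (Λ := Λ) (V := W2 N i R l) jx rx hc.entire hcr hk h3 (fun b _ f _ => hW2 b f) (fun z => Iff.rfl)
    rw [hm', hQ'] at H
    exact H
  · have H := outDualN (L := L) (Λ := Λ) (V := W2 N i R l) jx jn hc.entire hcr hk h3 (fun b _ f _ => hW2 b f)
    rw [hm', hQ'] at H
    exact H
  · rintro ⟨ε, hε, hs⟩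
    have hsd : Pool.Agent.Q286.TR.SelfDual L := by
      refine ⟨ε, hε, fun s => ?_⟩
      rw [h3, h3]
      have e1 : 1 - s + (((i : ℂ) + 1) / 2 - 1 / 2) = i + 1 - (s + (((i : ℂ) + 1) / 2 - 1 / 2)) := by ring
      rw [e1, hs]
      ring
    refine ⟨fun a ν f ha hf => ?_, ?_⟩
    · have h5 : Pool.Agent.Q286.XG.Deg (((i : ℂ) + 1) / 2) a ν f := hf
      rw [hW2, hW, W2_selfDual hsd ha (deg_hn ha h5).hd]
    · have H := outDualSN (L := L) (Λ := Λ) (V := W2 N i R l) jx jn hsd hc.entire hcr hk h3 (fun b _ f _ => hW2 b f)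
      rw [hm', hQ'] at H
      exact H

/-- **The theorem.** Let `X` be a proper smooth scheme over `ℤ[1/N]` of relative dimension `d`, let `R p i` be the
reciprocal roots of `P_i(X(p), T)`, `p ∤ N`, and let `H^i` be attached to the list `l` of newforms. -/
theorem result (N d i : ℕ) (hN : 1 ≤ N) (X : Scheme.{0})
    (π : X ⟶ Spec (CommRingCat.of (Localization.Away (N : ℤ)))) [IsProper π] [SmoothOfRelativeDimension d π]
    (R : ℕ → ℕ → Multiset ℂ) (hR : IsWeil X N d R) (hi : i ≤ 2 * d) (l : List Newform) (hl : Attached N i R l) :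
    ∃ F Λ : ℂ → ℂ, IsCompleted N i R l F Λ ∧
      (∀ F' Λ' : ℂ → ℂ, IsCompleted N i R l F' Λ' → F' = F ∧ Λ' = Λ) ∧
      (RiemannHypothesis i Λ →
        (∀ (a : ℝ) (ν : ℕ∞), 0 < a → (∃ f, Extremal (W2 N i R l) i a ν f) ∧ ∀ f, Extremal (W2 N i R l) i a ν f →
          2 * (order0 i Λ : ℝ) < W2 N i R l a f ∧ (∀ g, Extremal (W2 N i R l) i a ν g → g =ᵐ[volume] f) ∧ (∀ s, M i f (i + 1 - s) = M i f s) ∧
            (∀ s, M i f ((starRingEnd ℂ) s) = (starRingEnd ℂ) (M i f s)) ∧ ∀ s, M i f s = 0 → s.re = ((i : ℝ) + 1) / 2) ∧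
        (∀ b : ℝ, ∃ K A : ℝ, ∀ (a : ℝ) (ν : ℕ∞) (f : ℝ → ℂ), A ≤ a → Large (K * a ^ 2) ν → Extremal (W2 N i R l) i a ν f →
          W2 N i R l a f ≤ 2 * order0 i Λ + Real.exp (-(b * a ^ 2 * Real.log a))) ∧
        (∀ r ε : ℝ, 0 < ε → ∃ K A : ℝ, ∀ (a : ℝ) (ν : ℕ∞) (f : ℝ → ℂ), A ≤ a → Large (K * a ^ 2) ν → Extremal (W2 N i R l) i a ν f →
          ∀ s : ℂ, ‖s - ((i : ℂ) + 1) / 2‖ ≤ r → ‖M i f s - Xred i Λ s‖ ≤ ε) ∧
        (∀ z : ℂ, Λ z = 0 → z ≠ ((i : ℂ) + 1) / 2 → ∀ b : ℝ, ∃ K A : ℝ, ∀ (a : ℝ) (ν : ℕ∞) (f : ℝ → ℂ), A ≤ a → Large (K * a ^ 2) ν → Extremal (W2 N i R l) i a ν f →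
          ∃ t : ℝ, M i f (((i : ℂ) + 1) / 2 + t * I) = 0 ∧ |t - z.im| ≤ Real.exp (-(b * a ^ 2 * Real.log a))) ∧
        (∀ b : ℝ, b < 4 * Real.pi * deg l * (cond l : ℝ) ^ (-(1 / (deg l : ℝ))) →
          (∃ K A : ℝ, ∀ (a : ℝ) (ν : ℕ∞) (f : ℝ → ℂ), A ≤ a → Large (K * a * Real.exp (a / deg l)) ν → Extremal (W2 N i R l) i a ν f →
            W2 N i R l a f ≤ 2 * order0 i Λ + Real.exp (-(b * Real.exp (a / deg l)))) ∧
          ∀ z : ℂ, Λ z = 0 → z ≠ ((i : ℂ) + 1) / 2 → ∃ K A : ℝ, ∀ (a : ℝ) (ν : ℕ∞) (f : ℝ → ℂ), A ≤ a → Large (K * a * Real.exp (a / deg l)) ν →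
            Extremal (W2 N i R l) i a ν f → ∃ t : ℝ, M i f (((i : ℂ) + 1) / 2 + t * I) = 0 ∧ |t - z.im| ≤ Real.exp (-(b * Real.exp (a / deg l))))) ∧
      (¬ RiemannHypothesis i Λ → ∀ n : ℝ → ℕ, Tendsto (fun a : ℝ => (n a : ℝ) / a) atTop atTop →
        ∃ A : ℝ, ∀ a : ℝ, A ≤ a → ∀ B : ℝ, ∃ f, Trig a (n a) f ∧ M i f (((i : ℂ) + 1) / 2) = 1 ∧ W2 N i R l a f < -B) ∧
      (∀ n : ℝ → ℕ∞, (∀ K : ℝ, ∀ᶠ a in atTop, ∀ j : ℕ, n a = j → K * a ≤ j) →
        (RiemannHypothesis i Λ ↔ ∀ A : ℝ, ∃ a : ℝ, A ≤ a ∧ ∃ f, Extremal (W2 N i R l) i a (n a) f)) ∧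
      ((∃ ε : ℂ, ε ≠ 0 ∧ ∀ s : ℂ, Λ (i + 1 - s) = ε * Λ s) →
        (∀ (a : ℝ) (ν : ℕ∞) (f : ℝ → ℂ), 0 < a → Degree i a ν f → W2 N i R l a f = 2 * W N i R l a f) ∧
        (RiemannHypothesis i Λ → ∀ b : ℝ, b < 2 * Real.pi * deg l * (cond l : ℝ) ^ (-(1 / (deg l : ℝ))) →
          (∃ K A : ℝ, ∀ (a : ℝ) (ν : ℕ∞) (f : ℝ → ℂ), A ≤ a → Large (K * a * Real.exp (2 * a / deg l)) ν → Extremal (W2 N i R l) i a ν f →
            W2 N i R l a f ≤ 2 * order0 i Λ + Real.exp (-(b * Real.exp (2 * a / deg l)))) ∧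
          ∀ z : ℂ, Λ z = 0 → z ≠ ((i : ℂ) + 1) / 2 → ∃ K A : ℝ, ∀ (a : ℝ) (ν : ℕ∞) (f : ℝ → ℂ), A ≤ a →
            Large (K * a * Real.exp (2 * a / deg l)) ν → Extremal (W2 N i R l) i a ν f →
            ∃ t : ℝ, M i f (((i : ℂ) + 1) / 2 + t * I) = 0 ∧ |t - z.im| ≤ Real.exp (-(b * Real.exp (2 * a / deg l))))) := by
  obtain ⟨c, Λ₀, F, hc, hF, h⟩ := exists_hw hl
  obtain ⟨H, HN, HS⟩ := outH hl h
  refine ⟨F, _, h, fun F' Λ' h' => uniq_hw h h', ?_⟩
  have e2 : ∀ s : ℂ, (2 : ℂ) * (((i : ℂ) + 1) / 2) - s = i + 1 - s := fun s => by ring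
  have e4 : 4 * Real.pi * deg l * (cond l : ℝ) ^ (-(1 / (deg l : ℝ))) = 2 * (2 * Real.pi * deg l * (cond l : ℝ) ^ (-(1 / (deg l : ℝ)))) := by ring
  have e5 : 2 * Real.pi * deg l * (cond l : ℝ) ^ (-(1 / (deg l : ℝ))) = 2 * (Real.pi * deg l * (cond l : ℝ) ^ (-(1 / (deg l : ℝ)))) := by ring
  refine ⟨fun hRH => ⟨fun a ν ha => ⟨H.ex hRH a ν ha, fun f hf => ?_⟩, H.val hRH, H.conv hRH, H.zer hRH, fun b hb => ?_⟩,
    fun hRH => H.neg hRH, H.iffE, fun hs => ⟨(HS hs).1, fun hRH b hb => ?_⟩⟩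
  · obtain ⟨h1, h2, h3, h4, h5⟩ := H.str hRH a ν f ha hf
    exact ⟨h1, h2, fun s => by have := h3 s; rwa [e2] at this, h4, h5⟩
  · rw [e4] at hb
    exact ⟨HN.rateV hRH b hb, fun ρ hρ hρ1 => HN.rateZ hRH ρ hρ hρ1 b hb⟩
  · rw [e5] at hb
    exact ⟨(HS hs).2.rateV hRH b hb, fun ρ hρ hρ1 => (HS hs).2.rateZ hRH ρ hρ hρ1 b hb⟩

end Pool.Agent.Results.MP_7193be_nt.ExtremalFunctions
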