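import Pool.Agent.Q286.TR.HW

/-!
# The spectra attached to the cohomology of a scheme over `ℤ[1/N]`: a trichotomy

Let `X` be a proper smooth scheme over `ℤ[1/N]`, and suppose that the L-function of `H^i(X)` is a product of
L-functions of holomorphic newforms, of arbitrary levels and nebentypus characters and of weights
`k ≤ i + 1`, `k ≡ i + 1 mod 2`, twisted `j = (i + 1 - k)/2` times.  Examples: `H¹` of all modular curves
`X_0(M)`, `X_1(M)` and of their quotients, of all abelian varieties over `ℚ` of `GL₂`-type and their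
products (Khare-Wintenberger, Ribet), of all curves of which the Jacobian is such a product; `H³` of the
rigid Calabi-Yau threefolds (Gouvêa-Yui, Dieulefait); `H^i`, `i` odd, of products of these with varieties all of
whose cohomology is algebraic over `ℚ`; `H^i`, `i` odd, of the powers of an elliptic curve over `ℚ` with complex
multiplication (newforms of the weights `2, 4, …, i + 1`).
Let `Λ(s)` be the completed L-function; part (d) of the problem says that all its zeros are on the line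
`Re s = (i + 1)/2`.

Let `t(p^k)` be the trace of the `k`-th power of Frobenius on `H^i`, which for `p ∤ N` is determined by the numbers of
points of `X` over the finite fields.  For `a > 0` let `W a` be Weil's quadratic form of `H^i` on the functions on
`[-a, a]`, written through the conductor, the Gamma factor and the numbers `t(p^k)` with `p^k ≤ exp (2 a)`; no zero of
`Λ` enters.  We put `W2 a f = W a f + W a (conj f)` (which is `2 W` if `Λ(i + 1 - s) = ± Λ(s)`), and restrict it to the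
trigonometric polynomials of degree at most `n` (a Hermitian matrix of size `2 n + 1`).  The zeros of the Mellin transform
`M f` of a ground state `f` form the spectrum which Connes, Consani and Moscovici attach to `a, n` in the case of zeta.

(A) Let `n a / a ^ 2 → κ > 0`, `c = (i + 1)/2`, `Gs s = exp ((s - c) ^ 2 / (π ^ 2 κ))`, and `Xred` the product over the
distinct zeros in the upper half plane.  There are three cases.

* The Riemann hypothesis for `H^i` holds and `Λ(c) ≠ 0`, if and only if `M f s / M f c` tends to `Xred s * Gs s`, locally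
  uniformly in the complex plane, for the ground states of degree `n a`.  They are even for large `a`.
* The Riemann hypothesis for `H^i` holds and `Λ(c) = 0`, if and only if `M f s / (M f)' c` tends to
  `(s - c) * Xred s * Gs s`.  The ground states are odd for large `a`.
* The Riemann hypothesis for `H^i` fails.  Then for all degrees `m a ≥ n a` the lowest eigenvalue tends to `-∞`, and the
  spectra become dense in the critical line: the number of zeros of `M f` in every interval tends to infinity.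

In the first two cases the ground state is unique up to a factor, the convergence is faster than exponential (the distance
of a zero to the spectrum is at most `exp (- b a ^ 2 log a)` for every `b < 2 κ`), the lowest eigenvalue is positive and at
most `exp (- b a ^ 2 log a)` for every `b < 4 κ`, and the second eigenvalue is infinitely larger.

(B) The Riemann hypothesis for `H^i` holds if and only if for some interval the number of points of the spectrum does not
tend to infinity, and if and only if the lowest eigenvalue does not tend to `-∞`.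

(C) Unconditionally the `k`-th eigenvalue `λ` of `W a` satisfies `max 1 (-λ) = exp (2 (β - c + o(1)) a)`, where `β` is the
`k`-th largest real part of the zeros (at least `c`), for all degrees `m a` with `m a / a → ∞`, `log (m a) = exp (o(a))`.
-/

set_option autoImplicit false

open Complex AlgebraicGeometry CategoryTheory MeasureTheory Filter Topology
open scoped ComplexConjugate
open Pool.Agent.Q246.HW

namespace Pool.Agent.Results.MP_7193be_nt.SpectralTrichotomy

/-- The sums `u^k + v^k`, where `u + v = s` and `u v = e`. -/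
noncomputable def powers (s e : ℂ) : ℕ → ℂ
  | 0 => 2
  | 1 => s
  | k + 2 => s * powers s e (k + 1) - e * powers s e k

/-- The trace of the `k`-th power of Frobenius at `p` on `H^i` (`k ≥ 1`): the sum of the `k`-th powers of the reciprocal
roots of `P_i(X(p), T)` for `p ∤ N`, and of the product of the Euler polynomials of the newforms for `p ∣ N`. -/
noncomputable def trace (N i : ℕ) (R : ℕ → ℕ → Multiset ℂ) (l : List Newform) (p k : ℕ) : ℂ :=
  if p ∣ N then (l.map fun g => powers (a g.f p * (p : ℂ) ^ g.twist i) (g.ψ (p : ZMod g.N) * (p : ℂ) ^ i) k).sum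
  else ((R p i).map fun α => α ^ k).sum

/-- The Gamma factor `∏ Γ_ℂ(s - j)`, the product over the newforms of the list with `j = (i + 1 - k) / 2`. -/
noncomputable def gamma (i : ℕ) (l : List Newform) (s : ℂ) : ℂ := (l.map fun g => Gammaℂ (s - g.twist i)).prod

/-- Part (d) of the problem: all zeros of `Λ` have real part `(i + 1)/2`. -/
def RiemannHypothesis (i : ℕ) (Λ : ℂ → ℂ) : Prop := ∀ s : ℂ, Λ s = 0 → s.re = ((i : ℝ) + 1) / 2

/-! ### The quadratic form and the spectra -/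

/-- The trigonometric polynomials of degree at most `n` on `[-b, b]`, extended by `0`. -/
def Trig (b : ℝ) (n : ℕ) (f : ℝ → ℂ) : Prop := ∃ c : ℤ → ℂ, ∀ x : ℝ,
  f x = if |x| ≤ b then ∑ k ∈ Finset.Icc (-(n : ℤ)) n, c k * cexp ((Real.pi * k * x / b : ℝ) * I) else 0

/-- The Mellin transform of `f` in the logarithmic variable, centred at `(i + 1)/2`. -/
noncomputable def M (i : ℕ) (f : ℝ → ℂ) (s : ℂ) : ℂ := ∫ x : ℝ, f x * cexp ((s - ((i : ℂ) + 1) / 2) * x)

/-- The square of the norm of `f` in `L²`. -/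
noncomputable def nm (f : ℝ → ℂ) : ℝ := ∫ x : ℝ, ‖f x‖ ^ 2

/-- Weil's quadratic form of `H^i` for functions supported in `[-b, b]`: the conductor and the Gamma factor, and the traces
of Frobenius for the prime powers `n ≤ exp (2 b)`. -/
noncomputable def W (N i : ℕ) (R : ℕ → ℕ → Multiset ℂ) (l : List Newform) (b : ℝ) (f : ℝ → ℂ) : ℝ :=
  1 / (2 * Real.pi) * (∫ x : ℝ, (Real.log ((l.map Newform.N).prod : ℕ) +
    2 * (logDeriv (gamma i l) (((i : ℂ) + 1) / 2 + x * I)).re) * ‖M i f (((i : ℂ) + 1) / 2 + x * I)‖ ^ 2) -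
  2 * (∑ n ∈ Finset.Icc 1 ⌊Real.exp (2 * b)⌋₊,
    ArithmeticFunction.vonMangoldt n / (((n : ℝ) ^ (((i : ℝ) + 1) / 2) : ℝ) : ℂ) *
    trace N i R l n.minFac (n.factorization n.minFac) * ∫ x : ℝ, f (x + Real.log n) * (starRingEnd ℂ) (f x)).re

/-- The form `W f + W (conj f)`: Weil's form of `H^i` plus its dual. -/
noncomputable def W2 (N i : ℕ) (R : ℕ → ℕ → Multiset ℂ) (l : List Newform) (b : ℝ) (f : ℝ → ℂ) : ℝ :=
  W N i R l b f + W N i R l b fun x => (starRingEnd ℂ) (f x)

/-- `f` is a ground state of `F` in degree at most `n`: it is a trigonometric polynomial, not zero, and minimises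
`F b / nm`. -/
def Ground (F : ℝ → (ℝ → ℂ) → ℝ) (b : ℝ) (n : ℕ) (f : ℝ → ℂ) : Prop :=
  Trig b n f ∧ nm f ≠ 0 ∧ ∀ g : ℝ → ℂ, Trig b n g → F b f * nm g ≤ F b g * nm f

/-- The reduced function: the product over the distinct zeros in the upper half plane of the product of `Λ` with its
dual. -/
noncomputable def Xred (i : ℕ) (Λ : ℂ → ℂ) (s : ℂ) : ℂ :=
  ∏' z : {z : ℂ // (Λ z = 0 ∨ Λ ((starRingEnd ℂ) z) = 0) ∧ 0 < z.im},
    (1 - (s - ((i : ℂ) + 1) / 2) ^ 2 / ((z : ℂ) - ((i : ℂ) + 1) / 2) ^ 2)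

/-- The Gaussian factor. -/
noncomputable def Gs (i : ℕ) (κ : ℝ) (s : ℂ) : ℂ := cexp ((s - ((i : ℂ) + 1) / 2) ^ 2 / (Real.pi ^ 2 * κ))

/-- The numbers `x` such that `F ≤ x nm` on some space of trigonometric polynomials of dimension `k`; the least of them is
the `k`-th eigenvalue of `F`. -/
def Level (F : (ℝ → ℂ) → ℝ) (b : ℝ) (n k : ℕ) : Set ℝ := {x : ℝ | ∃ V : Submodule ℂ (ℝ → ℂ), (∀ f ∈ V, Trig b n f) ∧
  Module.finrank ℂ V = k ∧ ∀ f ∈ V, F f ≤ x * nm f}

/-- The ordinates in `(u, v)` of the zeros of the transform of `f` on the critical line. -/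
def Ord (i : ℕ) (f : ℝ → ℂ) (u v : ℝ) : Set ℝ := {t : ℝ | u < t ∧ t < v ∧ M i f (((i : ℂ) + 1) / 2 + t * I) = 0}

/-- The `k`-th largest real part of the distinct zeros of `Λ` (but at least `(i + 1)/2`). -/
noncomputable def beta (i : ℕ) (Λ : ℂ → ℂ) (k : ℕ) : ℝ :=
  sInf {x : ℝ | ((i : ℝ) + 1) / 2 ≤ x ∧ {s : ℂ | Λ s = 0 ∧ x < s.re}.encard < k}

/-! ### The proof -/

lemma powers_eq (s e : ℂ) : ∀ k : ℕ, powers s e k = Pool.Agent.H304R3.HK.ts s e k ∧
    powers s e (k + 1) = Pool.Agent.H304R3.HK.ts s e (k + 1) := by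
  intro k
  induction k with
  | zero => exact ⟨rfl, rfl⟩
  | succ k ih =>
    refine ⟨ih.2, ?_⟩
    show s * powers s e (k + 1) - e * powers s e k =
      s * Pool.Agent.H304R3.HK.ts s e (k + 1) - e * Pool.Agent.H304R3.HK.ts s e k
    rw [ih.1, ih.2]

lemma trace_eq (N i : ℕ) (R : ℕ → ℕ → Multiset ℂ) (l : List Newform) (p k : ℕ) :
    trace N i R l p k = Pool.Agent.Q286.TR.trH N i R l p k := by
  unfold trace Pool.Agent.Q286.TR.trH
  simp only [(powers_eq _ _ k).1]

open Pool.Agent.Q286.TR in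
lemma outH {N i : ℕ} {R : ℕ → ℕ → Multiset ℂ} {l : List Newform} (h : Attached N i R l) {F Λ : ℂ → ℂ}
    (hc : IsCompleted N i R l F Λ) :
    Out (W2 N i R l) (W N i R l) Λ (fun z => (Λ z = 0 ∨ Λ ((starRingEnd ℂ) z) = 0) ∧ 0 < z.im) (((i : ℂ) + 1) / 2)
      (((i : ℝ) + 1) / 2) ∧
    ((∃ ε : ℂ, ε ≠ 0 ∧ ∀ s : ℂ, Λ (i + 1 - s) = ε * Λ s) →
        ∀ b : ℝ, 0 < b → ∀ (n : ℕ) (f : ℝ → ℂ), Trig b n f → W2 N i R l b f = 2 * W N i R l b f) := by
  obtain ⟨L, h1, k, hk, h3⟩ := exH h hc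
  have hW : ∀ (b : ℝ) (g : ℝ → ℂ), W N i R l b g = Pool.Agent.Q286.TR.W L b g := fun b g => by
    rw [h1]
    unfold W WH
    simp only [trace_eq]
    rfl
  have hW2 : ∀ (b : ℝ) (g : ℝ → ℂ), W2 N i R l b g = Pool.Agent.Q286.TR.W2 L b g := fun b g => by
    unfold W2 Pool.Agent.Q286.TR.W2
    rw [hW, hW]
  refine ⟨out (L := L) (by push_cast; ring) hk h3 one_pos (fun b _ n f _ => by rw [hW2, one_mul]) (fun b _ n f _ => hW b f)
    (fun z => Iff.rfl), ?_⟩
  rintro ⟨ε, hε, hs⟩ b hb n f hf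
  have hsd : SelfDual L := by
    refine ⟨ε, hε, fun s => ?_⟩
    rw [h3, h3]
    have e1 : 1 - s + (((i : ℂ) + 1) / 2 - 1 / 2) = i + 1 - (s + (((i : ℂ) + 1) / 2 - 1 / 2)) := by ring
    rw [e1, hs]
    ring
  rw [hW2, hW, selfDual_W L hsd hb hf]

/-- **The theorem.** Let `X` be a proper smooth scheme over `ℤ[1/N]` of relative dimension `d`, let `R p i` be the
reciprocal roots of `P_i(X(p), T)`, `p ∤ N`, and let `H^i` be attached to the list `l` of newforms. -/
theorem result (N d i : ℕ) (hN : 1 ≤ N) (X : Scheme.{0})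
    (π : X ⟶ Spec (CommRingCat.of (Localization.Away (N : ℤ)))) [IsProper π] [SmoothOfRelativeDimension d π]
    (R : ℕ → ℕ → Multiset ℂ) (hR : IsWeil X N d R) (hi : i ≤ 2 * d) (l : List Newform) (hl : Attached N i R l) :
    ∃ F Λ : ℂ → ℂ, IsCompleted N i R l F Λ ∧
      (∀ F' Λ' : ℂ → ℂ, IsCompleted N i R l F' Λ' → F' = F ∧ Λ' = Λ) ∧
      (∀ b : ℝ, 0 < b → ∀ m : ℕ, ∃ f, Ground (W2 N i R l) b m f) ∧
      ((∃ ε : ℂ, ε ≠ 0 ∧ ∀ s : ℂ, Λ (i + 1 - s) = ε * Λ s) →
        ∀ b : ℝ, 0 < b → ∀ (n : ℕ) (f : ℝ → ℂ), Trig b n f → W2 N i R l b f = 2 * W N i R l b f) ∧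
      (∀ (κ : ℝ) (n : ℝ → ℕ), 0 < κ → Tendsto (fun b : ℝ => (n b : ℝ) / b ^ 2) atTop (𝓝 κ) →
        ((RiemannHypothesis i Λ ∧ Λ (((i : ℂ) + 1) / 2) ≠ 0) ↔ ∀ f : ℝ → ℝ → ℂ,
          (∀ b, 0 < b → Ground (W2 N i R l) b (n b) (f b)) →
          TendstoLocallyUniformly (fun b s => M i (f b) s / M i (f b) (((i : ℂ) + 1) / 2))
            (fun s => Xred i Λ s * Gs i κ s) atTop) ∧
        ((RiemannHypothesis i Λ ∧ Λ (((i : ℂ) + 1) / 2) = 0) ↔ ∀ f : ℝ → ℝ → ℂ,
          (∀ b, 0 < b → Ground (W2 N i R l) b (n b) (f b)) →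
          TendstoLocallyUniformly (fun b s => M i (f b) s / deriv (M i (f b)) (((i : ℂ) + 1) / 2))
            (fun s => (s - ((i : ℂ) + 1) / 2) * Xred i Λ s * Gs i κ s) atTop) ∧
        (RiemannHypothesis i Λ → (∃ A : ℝ, ∀ b, A ≤ b → ∀ f, Ground (W2 N i R l) b (n b) f →
            (Λ (((i : ℂ) + 1) / 2) ≠ 0 → M i f (((i : ℂ) + 1) / 2) ≠ 0 ∧ ∀ x, f (-x) = f x) ∧
            (Λ (((i : ℂ) + 1) / 2) = 0 → deriv (M i f) (((i : ℂ) + 1) / 2) ≠ 0 ∧ ∀ x, f (-x) = -f x) ∧
            ∀ g, Ground (W2 N i R l) b (n b) g → ∃ z : ℂ, ∀ x, g x = z * f x) ∧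
          (∀ c : ℝ, c < 4 * κ → ∃ A : ℝ, ∀ b, A ≤ b → ∀ f, Ground (W2 N i R l) b (n b) f →
            0 < W2 N i R l b f ∧ W2 N i R l b f ≤ Real.exp (-(c * b ^ 2 * Real.log b)) * nm f) ∧
          (∀ B : ℝ, ∃ A : ℝ, ∀ b, A ≤ b → ∀ f, Ground (W2 N i R l) b (n b) f → ∀ x ∈ Level (W2 N i R l b) b (n b) 2,
            B * W2 N i R l b f ≤ x * nm f) ∧
          (∀ z : ℂ, Λ z = 0 → ∀ c : ℝ, c < 2 * κ → ∃ A : ℝ, ∀ b, A ≤ b → ∀ f, Ground (W2 N i R l) b (n b) f →
            ∃ y : ℝ, M i f (((i : ℂ) + 1) / 2 + y * I) = 0 ∧ |y - z.im| ≤ Real.exp (-(c * b ^ 2 * Real.log b)))) ∧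
        (¬ RiemannHypothesis i Λ → ∀ m : ℝ → ℕ, (∀ᶠ b in atTop, n b ≤ m b) →
          (∀ B : ℝ, ∃ A : ℝ, ∀ b, A ≤ b → ∀ f, Ground (W2 N i R l) b (m b) f → W2 N i R l b f < -B * nm f) ∧
          ∀ (u v : ℝ) (C : ℕ), u < v → ∃ A : ℝ, ∀ b, A ≤ b → ∀ f, Ground (W2 N i R l) b (m b) f →
            (C : ℕ∞) ≤ (Ord i f u v).encard) ∧
        (RiemannHypothesis i Λ ↔ ∃ (u v : ℝ) (C : ℕ), u < v ∧ ∀ A : ℝ, ∃ b, A ≤ b ∧ ∃ f,
          Ground (W2 N i R l) b (n b) f ∧ (Ord i f u v).encard ≤ (C : ℕ∞)) ∧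
        (RiemannHypothesis i Λ ↔ ∃ B : ℝ, ∀ A : ℝ, ∃ b, A ≤ b ∧ ∃ f,
          Ground (W2 N i R l) b (n b) f ∧ -B * nm f ≤ W2 N i R l b f)) ∧
      (∀ m : ℝ → ℕ, Tendsto (fun b : ℝ => (m b : ℝ) / b) atTop atTop →
        (∀ ε : ℝ, 0 < ε → ∀ᶠ b : ℝ in atTop, Real.log (m b) ≤ Real.exp (ε * b)) →
        ∀ k : ℕ, 1 ≤ k →
          Tendsto (fun b : ℝ => Real.log (max 1 (-sInf (Level (W N i R l b) b (m b) k))) / b) atTop
            (𝓝 (2 * (beta i Λ k - ((i : ℝ) + 1) / 2)))) := by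
  obtain ⟨c, Λ₀, F, hc, hF, h⟩ := exists_hw hl
  obtain ⟨H, hsd⟩ := outH hl h
  exact ⟨F, _, h, fun F' Λ' h' => uniq_hw h h', H.ex, hsd, fun κ n hκ hn => ⟨H.even κ n hκ hn, H.odd κ n hκ hn, H.str κ n hκ hn,
    H.not κ n hκ hn, H.ord κ n hκ hn, H.low κ n hκ hn⟩, H.rate⟩

end Pool.Agent.Results.MP_7193be_nt.SpectralTrichotomy
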